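import Mathlib

/-! Countably complete ultrafilters on small sets are principal. -/

open Set Cardinal

universe u

namespace Pool.Agent.CpDisc

/-- the finite beth cardinals -/
noncomputable def bt : ℕ → Cardinal.{u}
  | 0 => ℵ₀
  | n + 1 => 2 ^ bt n

lemma bt_zero : bt.{u} 0 = ℵ₀ := rfl

lemma bt_succ (n : ℕ) : bt.{u} (n + 1) = 2 ^ bt.{u} n := rfl

lemma bt_lt_succ (n : ℕ) : bt.{u} n < bt.{u} (n + 1) := cantor _

lemma bt_strictMono : StrictMono bt.{u} := strictMono_nat_of_lt_succ bt_lt_succ

lemma aleph0_le_bt (n : ℕ) : ℵ₀ ≤ bt.{u} n := by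
  rw [← bt_zero]
  exact bt_strictMono.monotone (Nat.zero_le n)

/-- countably complete ultrafilters are principal -/
def Good (T : Type u) : Prop :=
  ∀ U : Ultrafilter T, CountableInterFilter (U : Filter T) → ∃ t, {t} ∈ U

lemma good_of_injective {T S : Type u} (f : T → S) (hf : Function.Injective f) (hS : Good S) :
    Good T := by
  intro U hU
  have h1 : CountableInterFilter ((U.map f : Ultrafilter S) : Filter S) := by
    rw [Ultrafilter.coe_map]
    infer_instance
  obtain ⟨s, hs⟩ := hS (U.map f) h1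
  rw [Ultrafilter.mem_map] at hs
  obtain ⟨t, ht⟩ := U.nonempty_of_mem hs
  refine ⟨t, ?_⟩
  convert hs using 1
  ext t'
  simp only [mem_singleton_iff, mem_preimage] at ht ⊢
  constructor
  · rintro rfl
    exact ht
  · intro h
    exact hf (h.trans ht.symm)

lemma good_countable {T : Type u} [Countable T] : Good T := by
  intro U hU
  by_contra hcon
  push Not at hcon
  have h1 : (⋂ t : T, ({t} : Set T)ᶜ) ∈ (U : Filter T) := by
    rw [countable_iInter_mem]
    intro t
    exact Ultrafilter.compl_mem_iff_notMem.2 (hcon t)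
  have h2 : (⋂ t : T, ({t} : Set T)ᶜ) = ∅ := by
    ext t
    simp
  rw [h2] at h1
  exact U.empty_notMem h1

lemma good_pow {S : Type u} (hS : Good S) : Good (S → Bool) := by
  classical
  intro U hU
  have hb : ∀ s : S, ∃ b : Bool, {t : S → Bool | t s = b} ∈ U := by
    intro s
    by_cases h : {t : S → Bool | t s = true} ∈ U
    · exact ⟨true, h⟩
    · refine ⟨false, ?_⟩
      have := Ultrafilter.compl_mem_iff_notMem.2 h
      convert this using 1
      ext t
      simp
  choose b hb using hb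
  refine ⟨b, ?_⟩
  by_contra hcon
  have h1 : ({b} : Set (S → Bool))ᶜ ∈ U := Ultrafilter.compl_mem_iff_notMem.2 hcon
  have hs : ∀ t : S → Bool, ∃ s : Option S, t ≠ b → ∃ s', s = some s' ∧ t s' ≠ b s' := by
    intro t
    by_cases h : t = b
    · exact ⟨none, fun h' => absurd h h'⟩
    · obtain ⟨s, hs⟩ := Function.ne_iff.1 h
      exact ⟨some s, fun _ => ⟨s, rfl, hs⟩⟩
  obtain ⟨t₀, ht₀⟩ := U.nonempty_of_mem h1
  obtain ⟨s₀, -, -⟩ := (hs t₀).choose_spec ht₀
  choose s hs using hs
  let s' : (S → Bool) → S := fun t => (s t).getD s₀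
  have hs' : ∀ t, t ≠ b → t (s' t) ≠ b (s' t) := by
    intro t ht
    obtain ⟨s'', h, h'⟩ := hs t ht
    simp only [s', h, Option.getD_some]
    exact h'
  have h2 : CountableInterFilter ((U.map s' : Ultrafilter S) : Filter S) := by
    rw [Ultrafilter.coe_map]
    infer_instance
  obtain ⟨s₁, hs₁⟩ := hS _ h2
  rw [Ultrafilter.mem_map] at hs₁
  obtain ⟨t, ⟨ht1, ht2⟩, ht3⟩ := U.nonempty_of_mem (U.inter_mem (U.inter_mem h1 hs₁) (hb s₁))
  simp only [mem_preimage, mem_singleton_iff, mem_compl_iff, mem_ofPred_eq] at ht1 ht2 ht3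
  have := hs' t ht1
  rw [ht2] at this
  exact this ht3

theorem good_of_le (n : ℕ) : ∀ (T : Type u), #T ≤ bt.{u} n → Good T := by
  induction n with
  | zero =>
    intro T hT
    rw [bt_zero, mk_le_aleph0_iff] at hT
    exact good_countable
  | succ n ih =>
    intro T hT
    rw [bt_succ] at hT
    have h1 : #((bt.{u} n).out → Bool) = 2 ^ bt.{u} n := by
      simp
    rw [← h1] at hT
    obtain ⟨f⟩ := hT
    refine good_of_injective f f.injective (good_pow (ih _ ?_))
    rw [mk_out]

end Pool.Agent.CpDisc
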