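import Mathlib
import Pool.Agent.CpDisc.Good

/-! The ladder orders and the antichain lemma. -/

open Set Cardinal

universe u

namespace Pool.Agent.CpDisc

/-- the `n`-th ladder order: the initial ordinal of the successor of the `n`-th beth cardinal -/
def Lad (n : ℕ) : Type u := (Order.succ (bt.{u} n)).ord.ToType

noncomputable instance (n : ℕ) : LinearOrder (Lad.{u} n) :=
  inferInstanceAs (LinearOrder (Order.succ (bt.{u} n)).ord.ToType)

instance (n : ℕ) : WellFoundedLT (Lad.{u} n) :=
  inferInstanceAs (WellFoundedLT (Order.succ (bt.{u} n)).ord.ToType)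

lemma mk_Lad (n : ℕ) : #(Lad.{u} n) = Order.succ (bt.{u} n) := by
  have : #((Order.succ (bt.{u} n)).ord.ToType) = Order.succ (bt.{u} n) := by
    simp
  exact this

lemma mk_Lad_le (n : ℕ) : #(Lad.{u} n) ≤ bt.{u} (n + 1) := by
  rw [mk_Lad, Order.succ_le_iff]
  exact bt_lt_succ n

instance (n : ℕ) : Nonempty (Lad.{u} n) := by
  rw [← mk_ne_zero_iff, mk_Lad]
  exact ((zero_le : (0 : Cardinal.{u}) ≤ bt.{u} n).trans_lt (Order.lt_succ _)).ne'

lemma exists_bound (n : ℕ) (S : Set (Lad.{u} n)) (hS : #S ≤ bt.{u} n) : ∃ b, ∀ s ∈ S, s < b := by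
  by_contra hcon
  push Not at hcon
  have h1 : IsCofinal S := hcon
  have h2 := Order.cof_le h1
  have h3 : Order.cof (Lad.{u} n) = Order.succ (bt.{u} n) := by
    have : Order.cof ((Order.succ (bt.{u} n)).ord.ToType) = Order.succ (bt.{u} n) := by
      rw [Ordinal.cof_toType]
      exact (isRegular_succ (aleph0_le_bt n)).cof_ord
    exact this
  rw [h3] at h2
  exact absurd (h2.trans hS) (not_le.2 (Order.lt_succ _))

lemma uncountable_Lad (n : ℕ) : ¬ Countable (Lad.{u} n) := by
  intro h
  obtain ⟨b, hb⟩ := exists_bound n univ (by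
    rw [mk_univ]
    exact (mk_le_aleph0_iff.2 h).trans (aleph0_le_bt n))
  exact lt_irrefl b (hb b (mem_univ _))

section Antichain

variable {𝒜 : Type u} [Nonempty 𝒜] {K : Type*}

/-- recursive choice of representatives -/
noncomputable def repr (P : 𝒜 → 𝒜 → K) (a : 𝒜) : Lad.{u} 0 → 𝒜 :=
  (wellFounded_lt : WellFounded ((· < ·) : Lad.{u} 0 → Lad.{u} 0 → Prop)).fix
    (fun w ih => Classical.epsilon (fun c => ∀ v (h : v < w), P (ih v h) c = P (ih v h) a))

lemma repr_eq (P : 𝒜 → 𝒜 → K) (a : 𝒜) (w : Lad.{u} 0) :
    repr P a w = Classical.epsilon (fun c => ∀ v, v < w → P (repr P a v) c = P (repr P a v) a) := by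
  unfold repr
  rw [WellFounded.fix_eq]

lemma repr_spec (P : 𝒜 → 𝒜 → K) (a : 𝒜) (w v : Lad.{u} 0) (h : v < w) :
    P (repr P a v) (repr P a w) = P (repr P a v) a := by
  have := Classical.epsilon_spec (p := fun c => ∀ v, v < w → P (repr P a v) c = P (repr P a v) a)
    ⟨a, fun v _ => rfl⟩
  rw [← repr_eq] at this
  exact this v h

lemma repr_congr (P : 𝒜 → 𝒜 → K) (a b : 𝒜)
    (h : ∀ w, P (repr P a w) a = P (repr P b w) b) (w : Lad.{u} 0) : repr P a w = repr P b w := by
  induction w using WellFoundedLT.induction with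
  | ind w ih =>
    rw [repr_eq P a w, repr_eq P b w]
    congr 1
    funext c
    apply propext
    constructor
    · intro h1 v hv
      have := h1 v hv
      rw [h v, ih v hv] at this
      exact this
    · intro h1 v hv
      rw [h v, ih v hv]
      exact h1 v hv

end Antichain

/-- A family in a countable product of well orders without comparable distinct members is small. -/
theorem mk_le_of_antichain {𝒜 : Type u} {ι : Type} [Countable ι] (Lin : ι → Type u)
    [∀ i, LinearOrder (Lin i)] [∀ i, WellFoundedLT (Lin i)] (F : 𝒜 → ∀ i, Lin i)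
    (hF : ∀ a b, (∀ i, F a i ≤ F b i) → a = b) : #𝒜 ≤ bt.{u} 2 := by
  classical
  rcases isEmpty_or_nonempty 𝒜 with h | h
  · simp
  let P : 𝒜 → 𝒜 → Option ι := fun c a => if h : ∃ i, F a i < F c i then some h.choose else none
  have hP0 : ∀ c, P c c = none := by
    intro c
    simp [P]
  have hP1 : ∀ c a, P c a = none → c = a := by
    intro c a hca
    by_contra hne
    have : ∃ i, F a i < F c i := by
      by_contra hcon
      push Not at hcon
      exact hne (hF c a hcon)
    simp only [P, this, dite_true] at hca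
    exact absurd hca (by simp)
  have hP2 : ∀ c a i, P c a = some i → F a i < F c i := by
    intro c a i hca
    by_cases hex : ∃ i, F a i < F c i
    · simp only [P, hex, dite_true, Option.some.injEq] at hca
      rw [← hca]
      exact hex.choose_spec
    · simp only [P, hex, dite_false] at hca
      exact absurd hca (by simp)
  have hstop : ∀ a, ∃ w, repr P a w = a := by
    intro a
    by_contra hcon
    push Not at hcon
    have hsome : ∀ w, ∃ i, P (repr P a w) a = some i := by
      intro w
      by_contra hno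
      push Not at hno
      apply hcon w
      apply hP1
      rcases hPw : P (repr P a w) a with _ | i
      · rfl
      · exact absurd hPw (hno i)
    choose i hi using hsome
    have hfin : ∀ j : ι, {w : Lad.{u} 0 | i w = j}.Finite := by
      intro j
      have hanti : StrictAnti (fun w : {w : Lad.{u} 0 | i w = j} => F (repr P a w.1) j) := by
        intro v w hvw
        have h1 := repr_spec P a w.1 v.1 hvw
        rw [hi v.1] at h1
        have h2 := hP2 _ _ _ h1
        have h3 : i v.1 = j := v.2
        rw [h3] at h2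
        exact h2
      have : WellFoundedGT {w : Lad.{u} 0 | i w = j} := hanti.wellFoundedGT
      have : Finite {w : Lad.{u} 0 | i w = j} := Finite.of_wellFoundedLT_wellFoundedGT _
      exact Set.toFinite _
    apply uncountable_Lad.{u} 0
    have h1 : (univ : Set (Lad.{u} 0)) = ⋃ j, {w | i w = j} := by
      ext w
      simp
    have h2 : (univ : Set (Lad.{u} 0)).Countable := by
      rw [h1]
      exact countable_iUnion fun j => (hfin j).countable
    exact countable_univ_iff.1 h2
  have hinj : Function.Injective (fun (a : 𝒜) (w : Lad.{u} 0) => P (repr P a w) a) := by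
    intro a b hab
    have hab' : ∀ w, P (repr P a w) a = P (repr P b w) b := fun w => congrFun hab w
    obtain ⟨w, hw⟩ := hstop a
    have h1 := repr_congr P a b hab' w
    have h2 := hab' w
    rw [hw, hP0, ← h1, hw] at h2
    exact hP1 a b h2.symm
  have h1 := mk_le_of_injective hinj
  refine h1.trans ?_
  rw [mk_arrow]
  have h2 : lift.{u} #(Option ι) ≤ bt.{u} 0 := by
    rw [bt_zero, lift_le_aleph0]
    exact mk_le_aleph0
  have h3 : lift.{0} #(Lad.{u} 0) ≤ bt.{u} 1 := by
    rw [lift_uzero]
    exact mk_Lad_le 0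
  calc lift.{u} #(Option ι) ^ lift.{0} #(Lad.{u} 0) ≤ bt.{u} 0 ^ lift.{0} #(Lad.{u} 0) :=
        power_le_power_right h2
    _ ≤ bt.{u} 0 ^ bt.{u} 1 := power_le_power_left (aleph0_pos.ne' ) h3
    _ ≤ bt.{u} 1 ^ bt.{u} 1 := power_le_power_right (bt_lt_succ 0).le
    _ = bt.{u} 2 := power_self_eq (aleph0_le_bt 1)

end Pool.Agent.CpDisc
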