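import Mathlib

/-! Continuous real functions on a dense subspace of a power of a second countable space
depend on countably many coordinates. -/

open Set Topology

namespace Pool.Agent.CpDisc

section Factor

variable {ι M : Type*}

/-- a basic box -/
def box (b : ℕ → Set M) (q : Finset (ι × ℕ)) : Set (ι → M) :=
  {s | ∀ p ∈ q, s p.1 ∈ b p.2}

lemma exists_countable_closed (F : Finset (ι × ℕ) → ℕ → Finset (ι × ℕ)) :
    ∃ A : Set ι, A.Countable ∧ ∀ (p : Finset (ι × ℕ)) (k : ℕ),
      (∀ x ∈ p, x.1 ∈ A) → ∀ x ∈ F p k, x.1 ∈ A := by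
  classical
  let step : Set ι → Set ι := fun A =>
    A ∪ ⋃ p ∈ {p : Finset (ι × ℕ) | ∀ x ∈ p, x.1 ∈ A}, ⋃ k : ℕ, {i | ∃ n, (i, n) ∈ F p k}
  have hstep : ∀ A, A.Countable → (step A).Countable := by
    intro A hA
    refine hA.union ?_
    have h1 : {p : Finset (ι × ℕ) | ∀ x ∈ p, x.1 ∈ A}.Countable := by
      have h2 : (A ×ˢ (univ : Set ℕ)).Countable := hA.prod countable_univ
      have h3 := Set.countable_ofPred_finite_subset h2
      refine (h3.preimage_of_injOn (f := fun p : Finset (ι × ℕ) => (↑p : Set (ι × ℕ))) ?_).mono ?_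
      · intro p _ q _ h
        exact Finset.coe_injective h
      · intro p hp
        refine ⟨p.finite_toSet, ?_⟩
        intro x hx
        exact ⟨hp x hx, mem_univ _⟩
    refine h1.biUnion fun p _ => countable_iUnion fun k => ?_
    refine ((F p k).image Prod.fst).countable_toSet.mono ?_
    rintro i ⟨n, hn⟩
    simp only [Finset.coe_image, mem_image, Finset.mem_coe]
    exact ⟨(i, n), hn, rfl⟩
  let A : ℕ → Set ι := fun n => step^[n] ∅
  have hA : ∀ n, (A n).Countable := by
    intro n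
    induction n with
    | zero => simp [A]
    | succ n ih =>
      simp only [A, Function.iterate_succ_apply'] at ih ⊢
      exact hstep _ ih
  have hmono : Monotone A := by
    refine monotone_nat_of_le_succ fun n => ?_
    simp only [A, Function.iterate_succ_apply']
    exact subset_union_left
  refine ⟨⋃ n, A n, countable_iUnion hA, ?_⟩
  intro p k hp x hx
  have : ∃ n, ∀ x ∈ p, x.1 ∈ A n := by
    have hp' : ∀ x ∈ p, ∃ n, x.1 ∈ A n := fun x hx => mem_iUnion.1 (hp x hx)
    choose! f hf using hp'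
    refine ⟨p.sup f, fun x hx => hmono (Finset.le_sup hx) (hf x hx)⟩
  obtain ⟨n, hn⟩ := this
  refine mem_iUnion.2 ⟨n + 1, ?_⟩
  simp only [A, Function.iterate_succ_apply']
  refine Or.inr ?_
  refine mem_biUnion (x := p) hn ?_
  refine mem_iUnion.2 ⟨k, ⟨x.2, ?_⟩⟩
  simpa using hx

/-- A continuous real function on a dense subset of a power of a second countable space
depends on countably many coordinates. -/
theorem exists_countable_dep [TopologicalSpace M] [SecondCountableTopology M]
    (S : Set (ι → M)) (hS : Dense S) {G : S → ℝ} (hG : Continuous G) :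
    ∃ A : Set ι, A.Countable ∧ ∀ s s' : S, (∀ i ∈ A, s.1 i = s'.1 i) → G s = G s' := by
  classical
  obtain ⟨B, hBc, -, hB⟩ := TopologicalSpace.exists_countable_basis M
  obtain ⟨b, hb⟩ : ∃ b : ℕ → Set M, ∀ t ∈ B, ∃ n, b n = t := by
    rcases B.eq_empty_or_nonempty with h | h
    · exact ⟨fun _ => ∅, by simp [h]⟩
    · obtain ⟨b, hb⟩ := hBc.exists_eq_range h
      exact ⟨b, fun t ht => by rw [hb] at ht; exact ht⟩
  obtain ⟨B', hBc', -, hB'⟩ := TopologicalSpace.exists_countable_basis ℝ
  -- restrict to the basis elements by making the others universal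
  let b' : ℕ → Set M := fun n => if IsOpen (b n) then b n else univ
  have hb'o : ∀ n, IsOpen (b' n) := by
    intro n
    by_cases h : IsOpen (b n)
    · simp [b', h]
    · simp [b', h]
  have hb' : ∀ t ∈ B, ∃ n, b' n = t := by
    intro t ht
    obtain ⟨n, hn⟩ := hb t ht
    refine ⟨n, ?_⟩
    have : IsOpen (b n) := by rw [hn]; exact hB.isOpen ht
    simp only [b', if_pos this]; exact hn
  obtain ⟨I, hI⟩ : ∃ I : ℕ → Set ℝ, ∀ t ∈ B', ∃ n, I n = t := by
    rcases B'.eq_empty_or_nonempty with h | h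
    · exact ⟨fun _ => ∅, by simp [h]⟩
    · obtain ⟨b, hb⟩ := hBc'.exists_eq_range h
      exact ⟨b, fun t ht => by rw [hb] at ht; exact ht⟩
  have box_open : ∀ q : Finset (ι × ℕ), IsOpen (box b' q) := by
    intro q
    have : box b' q = ⋂ p ∈ q, {s : ι → M | s p.1 ∈ b' p.2} := by
      ext s; simp [box]
    rw [this]
    refine isOpen_biInter_finset fun p _ => ?_
    exact (hb'o p.2).preimage (continuous_apply p.1)
  -- good boxes
  have box_nhds : ∀ (s : S) (U : Set ℝ), IsOpen U → G s ∈ U →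
      ∃ q : Finset (ι × ℕ), s.1 ∈ box b' q ∧ ∀ s' : S, s'.1 ∈ box b' q → G s' ∈ U := by
    intro s U hU hsU
    have h1 : G ⁻¹' U ∈ 𝓝 s := (hU.preimage hG).mem_nhds hsU
    rw [mem_nhds_subtype] at h1
    obtain ⟨V, hV, hVU⟩ := h1
    rw [nhds_pi, Filter.mem_pi] at hV
    obtain ⟨J, hJ, t, ht, htV⟩ := hV
    have h2 : ∀ i, ∃ n, s.1 i ∈ b' n ∧ b' n ⊆ t i := by
      intro i
      obtain ⟨v, hv, hsv, hvt⟩ := hB.mem_nhds_iff.1 (ht i)
      obtain ⟨n, hn⟩ := hb' v hv
      exact ⟨n, by rw [hn]; exact hsv, by rw [hn]; exact hvt⟩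
    choose n hn1 hn2 using h2
    refine ⟨hJ.toFinset.image (fun i => (i, n i)), ?_, ?_⟩
    · intro p hp
      simp only [Finset.mem_image, Finite.mem_toFinset] at hp
      obtain ⟨i, hi, rfl⟩ := hp
      exact hn1 i
    · intro s' hs'
      apply hVU
      apply htV
      intro i hi
      apply hn2 i
      have := hs' (i, n i) (by
        simp only [Finset.mem_image, Finite.mem_toFinset]
        exact ⟨i, hi, rfl⟩)
      exact this
  -- choice function
  let good : Finset (ι × ℕ) → ℕ → Finset (ι × ℕ) → Prop := fun p k q =>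
    p ⊆ q ∧ (box b' q).Nonempty ∧ ∀ s' : S, s'.1 ∈ box b' q → G s' ∈ I k
  let F : Finset (ι × ℕ) → ℕ → Finset (ι × ℕ) := fun p k =>
    if h : ∃ q, good p k q then h.choose else ∅
  have hF : ∀ p k, (∃ q, good p k q) → good p k (F p k) := by
    intro p k h
    simp only [F, h, dite_true]
    exact h.choose_spec
  obtain ⟨A, hAc, hA⟩ := exists_countable_closed F
  refine ⟨A, hAc, ?_⟩
  intro s s' hss
  by_contra hne
  obtain ⟨U, U', hU, hU', hsU, hsU', hUU⟩ := t2_separation hne
  obtain ⟨v, hv, hsv, hvU⟩ := hB'.mem_nhds_iff.1 (hU.mem_nhds hsU)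
  obtain ⟨k, hk⟩ := hI v hv
  obtain ⟨q, hq1, hq2⟩ := box_nhds s (I k) (by rw [hk]; exact hB'.isOpen hv) (by rw [hk]; exact hsv)
  obtain ⟨q', hq1', hq2'⟩ := box_nhds s' U' hU' hsU'
  set p : Finset (ι × ℕ) := (q ∪ q').filter (fun x => x.1 ∈ A) with hp
  have hsp : ∀ x ∈ p, s.1 x.1 ∈ b' x.2 := by
    intro x hx
    rw [hp, Finset.mem_filter, Finset.mem_union] at hx
    rcases hx.1 with h | h
    · exact hq1 x h
    · rw [hss x.1 hx.2]; exact hq1' x h
  have hgood : good p k (q ∪ p) := by
    refine ⟨Finset.subset_union_right, ⟨s.1, ?_⟩, ?_⟩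
    · intro x hx
      rcases Finset.mem_union.1 hx with h | h
      · exact hq1 x h
      · exact hsp x h
    · intro s'' hs''
      exact hq2 s'' (fun x hx => hs'' x (Finset.mem_union_left _ hx))
  have hgood' := hF p k ⟨_, hgood⟩
  obtain ⟨hpq, ⟨y, hy⟩, hGI⟩ := hgood'
  have hsupp : ∀ x ∈ F p k, x.1 ∈ A := hA p k (fun x hx => (Finset.mem_filter.1 hx).2)
  -- the common point
  let z : ι → M := fun i => if i ∈ A then y i else s'.1 i
  have hz : z ∈ box b' (F p k) ∩ box b' q' := by
    refine ⟨?_, ?_⟩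
    · intro x hx
      have := hsupp x hx
      simp only [z, this, if_true]
      exact hy x hx
    · intro x hx
      by_cases hxA : x.1 ∈ A
      · simp only [z, hxA, if_true]
        apply hy
        apply hpq
        exact Finset.mem_filter.2 ⟨Finset.mem_union_right _ hx, hxA⟩
      · simp only [z, hxA, if_false]
        exact hq1' x hx
  obtain ⟨s'', hs''⟩ := hS.inter_open_nonempty _ ((box_open _).inter (box_open _)) ⟨z, hz⟩
  have h1 := hGI ⟨s'', hs''.2⟩ hs''.1.1
  have h2 := hq2' ⟨s'', hs''.2⟩ hs''.1.2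
  exact (Set.disjoint_left.1 hUU) (hvU (by rw [← hk]; exact h1)) h2

end Factor

end Pool.Agent.CpDisc
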