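import Mathlib
import Pool.Agent.CpDisc.Factor

/-! Realcompactness (closed embeddability in powers of ℝ) of subspaces of `X → ℝ`. -/

open Set Topology

universe u

namespace Pool.Agent.CpDisc

/-- `Gδ`-closed subsets of `X → ℝ` are closed embeddable into a power of `ℝ`. -/
theorem exists_isClosedEmbedding {X : Type u} (S : Set (X → ℝ))
    (hS : ∀ Ψ : X → ℝ, (∀ C : Set X, C.Countable → ∃ h ∈ S, ∀ x ∈ C, h x = Ψ x) → Ψ ∈ S) :
    ∃ (ι : Type u) (g : S → (ι → ℝ)), IsClosedEmbedding g := by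
  classical
  by_cases hX : IsEmpty X
  · refine ⟨X, fun s => s.1, ?_⟩
    have hss : Subsingleton (X → ℝ) := inferInstance
    refine ⟨IsEmbedding.subtypeVal, ?_⟩
    have : DiscreteTopology (X → ℝ) := inferInstance
    exact isClosed_discrete _
  rw [not_isEmpty_iff] at hX
  -- witnesses
  have hc : ∀ Ψ : {Ψ : X → ℝ // Ψ ∉ S}, ∃ c : ℕ → X, ∀ h ∈ S, ∃ n, h (c n) ≠ Ψ.1 (c n) := by
    rintro ⟨Ψ, hΨ⟩
    by_contra hcon
    push Not at hcon
    apply hΨ
    apply hS
    intro C hC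
    rcases C.eq_empty_or_nonempty with h | h
    · obtain ⟨x⟩ := hX
      obtain ⟨h', hh', -⟩ := hcon (fun _ => x)
      exact ⟨h', hh', by simp [h]⟩
    · obtain ⟨c, rfl⟩ := hC.exists_eq_range h
      obtain ⟨h', hh', hc⟩ := hcon c
      refine ⟨h', hh', ?_⟩
      rintro x ⟨n, rfl⟩
      exact hc n
  choose c hc using hc
  -- distance type functions
  let d : {Ψ : X → ℝ // Ψ ∉ S} → (X → ℝ) → ℝ := fun Ψ h =>
    ∑' n : ℕ, (1 / 2 : ℝ) ^ n * min 1 |h (c Ψ n) - Ψ.1 (c Ψ n)|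
  have hbound : ∀ (Ψ : {Ψ : X → ℝ // Ψ ∉ S}) (h : X → ℝ) (n : ℕ),
      ‖(1 / 2 : ℝ) ^ n * min 1 |h (c Ψ n) - Ψ.1 (c Ψ n)|‖ ≤ (1 / 2 : ℝ) ^ n := by
    intro Ψ h n
    have h1 : (0 : ℝ) ≤ min 1 |h (c Ψ n) - Ψ.1 (c Ψ n)| := le_min zero_le_one (abs_nonneg _)
    have h2 : min 1 |h (c Ψ n) - Ψ.1 (c Ψ n)| ≤ 1 := min_le_left _ _
    rw [Real.norm_of_nonneg (by positivity)]
    calc (1 / 2 : ℝ) ^ n * min 1 |h (c Ψ n) - Ψ.1 (c Ψ n)| ≤ (1 / 2 : ℝ) ^ n * 1 := by gcongr
      _ = _ := mul_one _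
  have hdcont : ∀ Ψ, Continuous (d Ψ) := by
    intro Ψ
    refine continuous_tsum (u := fun n => (1 / 2 : ℝ) ^ n) ?_ summable_geometric_two (fun n h => hbound Ψ h n)
    intro n
    fun_prop
  have hd0 : ∀ Ψ : {Ψ : X → ℝ // Ψ ∉ S}, d Ψ Ψ.1 = 0 := by
    intro Ψ
    simp [d]
  have hdpos : ∀ (Ψ : {Ψ : X → ℝ // Ψ ∉ S}) (h : X → ℝ), h ∈ S → 0 < d Ψ h := by
    intro Ψ h hh
    obtain ⟨n, hn⟩ := hc Ψ h hh
    have hsum : Summable fun n : ℕ => (1 / 2 : ℝ) ^ n * min 1 |h (c Ψ n) - Ψ.1 (c Ψ n)| :=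
      Summable.of_norm_bounded summable_geometric_two (hbound Ψ h)
    refine hsum.tsum_pos (fun n => ?_) n ?_
    · have h1 : (0 : ℝ) ≤ min 1 |h (c Ψ n) - Ψ.1 (c Ψ n)| := le_min zero_le_one (abs_nonneg _)
      positivity
    · have h1 : (0 : ℝ) < min 1 |h (c Ψ n) - Ψ.1 (c Ψ n)| :=
        lt_min zero_lt_one (abs_pos.2 (sub_ne_zero.2 hn))
      positivity
  let g : S → ((X ⊕ {Ψ : X → ℝ // Ψ ∉ S}) → ℝ) := fun h => Sum.elim h.1 (fun Ψ => (d Ψ h.1)⁻¹)
  refine ⟨X ⊕ {Ψ : X → ℝ // Ψ ∉ S}, g, ?_, ?_⟩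
  · have hgc : Continuous g := by
      refine continuous_pi fun i => ?_
      rcases i with x | Ψ
      · exact (continuous_apply x).comp continuous_subtype_val
      · refine Continuous.inv₀ ((hdcont Ψ).comp continuous_subtype_val) ?_
        intro h
        exact (hdpos Ψ h.1 h.2).ne'
    have hr : Continuous (fun z : (X ⊕ {Ψ : X → ℝ // Ψ ∉ S}) → ℝ => fun x => z (Sum.inl x)) :=
      continuous_pi fun x => continuous_apply _
    refine IsEmbedding.of_comp hgc hr ?_
    exact IsEmbedding.subtypeVal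
  · have : range g = ⋂ Ψ : {Ψ : X → ℝ // Ψ ∉ S},
        {z | z (Sum.inr Ψ) * d Ψ (fun x => z (Sum.inl x)) = 1} := by
      ext z
      simp only [mem_range, mem_iInter, mem_ofPred_eq]
      constructor
      · rintro ⟨h, rfl⟩ Ψ
        simp only [g, Sum.elim_inr, Sum.elim_inl]
        exact inv_mul_cancel₀ (hdpos Ψ h.1 h.2).ne'
      · intro hz
        have hmem : (fun x => z (Sum.inl x)) ∈ S := by
          by_contra hcon
          have h1 := hz ⟨_, hcon⟩
          have h0 := hd0 ⟨_, hcon⟩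
          simp only at h0
          rw [h0] at h1
          simp at h1
        refine ⟨⟨_, hmem⟩, ?_⟩
        funext i
        rcases i with x | Ψ
        · rfl
        · simp only [g, Sum.elim_inr]
          exact (eq_inv_of_mul_eq_one_left (hz Ψ)).symm
    rw [this]
    refine isClosed_iInter fun Ψ => ?_
    refine isClosed_eq ?_ continuous_const
    have hr' : Continuous (fun z : (X ⊕ {Ψ : X → ℝ // Ψ ∉ S}) → ℝ => fun x : X => z (Sum.inl x)) :=
      continuous_pi fun x => continuous_apply _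
    have h2 := (hdcont Ψ).comp hr'
    exact (continuous_apply _).mul h2

/-- continuous functions on a Tychonoff space are dense in all functions -/
theorem dense_continuous (X : Type u) [TopologicalSpace X] [T35Space X] :
    Dense {f : X → ℝ | Continuous f} := by
  classical
  intro Ψ
  rw [mem_closure_iff_nhds]
  intro t ht
  rw [nhds_pi, Filter.mem_pi] at ht
  obtain ⟨J, hJ, v, hv, hvt⟩ := ht
  -- interpolation
  have hf : ∀ x : X, ∃ f : X → ℝ, Continuous f ∧ f x = 0 ∧ ∀ y ∈ J \ {x}, f y = 1 := by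
    intro x
    have hcl : IsClosed (J \ {x}) := (hJ.subset sdiff_subset).isClosed
    obtain ⟨f, hf, hfx, hfK⟩ := CompletelyRegularSpace.completely_regular x (J \ {x}) hcl (by simp)
    refine ⟨fun y => f y, by fun_prop, ?_, ?_⟩
    · simp [hfx]
    · intro y hy
      have := hfK hy
      simp [this]
  choose f hfc hfx hfy using hf
  refine ⟨fun y => ∑ x ∈ hJ.toFinset, Ψ x * (1 - f x y), ?_, ?_⟩
  · apply hvt
    intro y hy
    have : (∑ x ∈ hJ.toFinset, Ψ x * (1 - f x y)) = Ψ y := by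
      rw [Finset.sum_eq_single y]
      · simp [hfx]
      · intro x hx hxy
        rw [hfy x y ⟨hy, by simpa using hxy.symm⟩]
        simp
      · intro h
        exact absurd (by simpa using hy) h
    show (∑ x ∈ hJ.toFinset, Ψ x * (1 - f x y)) ∈ v y
    rw [this]
    exact mem_of_mem_nhds (hv y)
  · show Continuous _
    refine continuous_finsetSum _ fun x _ => ?_
    have := hfc x
    fun_prop

/-- If some discontinuous function agrees with a continuous function on every countable set then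
`C_p(X)` is not closed embeddable in a power of `ℝ`. -/
theorem not_isClosedEmbedding {X : Type u} [TopologicalSpace X] [T35Space X] (φ : X → ℝ)
    (hφ : ¬ Continuous φ)
    (h : ∀ C : Set X, C.Countable → ∃ h : X → ℝ, Continuous h ∧ ∀ x ∈ C, h x = φ x) :
    ¬ ∃ (ι : Type u) (g : ↥{f : X → ℝ | Continuous f} → (ι → ℝ)), IsClosedEmbedding g := by
  classical
  rintro ⟨ι, g, hg⟩
  have hdep : ∀ i : ι, ∃ A : Set X, A.Countable ∧ ∀ s s' : ↥{f : X → ℝ | Continuous f},
      (∀ x ∈ A, s.1 x = s'.1 x) → g s i = g s' i := by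
    intro i
    exact exists_countable_dep _ (dense_continuous X) (G := fun s => g s i)
      ((continuous_apply i).comp hg.continuous)
  choose A hA hAg using hdep
  have hh : ∀ i, ∃ h : ↥{f : X → ℝ | Continuous f}, ∀ x ∈ A i, h.1 x = φ x := by
    intro i
    obtain ⟨h, hc, hh⟩ := h (A i) (hA i)
    exact ⟨⟨h, hc⟩, hh⟩
  choose H hH using hh
  let p : ι → ℝ := fun i => g (H i) i
  have hagree : ∀ (J : Set ι) (_ : J.Finite) (C : Set X) (_ : C.Countable),
      ∃ s : ↥{f : X → ℝ | Continuous f}, (∀ i ∈ J, g s i = p i) ∧ ∀ x ∈ C, s.1 x = φ x := by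
    intro J hJ C hC
    obtain ⟨s, hs, hs'⟩ := h ((⋃ i ∈ J, A i) ∪ C) ((hJ.countable.biUnion fun i _ => hA i).union hC)
    refine ⟨⟨s, hs⟩, ?_, fun x hx => hs' x (Or.inr hx)⟩
    intro i hi
    refine hAg i _ _ fun x hx => ?_
    rw [hH i x hx]
    exact hs' x (Or.inl (mem_biUnion hi hx))
  have hp : p ∈ range g := by
    rw [← hg.isClosed_range.closure_eq, mem_closure_iff_nhds]
    intro t ht
    rw [nhds_pi, Filter.mem_pi] at ht
    obtain ⟨J, hJ, v, hv, hvt⟩ := ht
    obtain ⟨s, hs, -⟩ := hagree J hJ ∅ countable_empty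
    refine ⟨g s, hvt ?_, mem_range_self s⟩
    intro i hi
    rw [hs i hi]
    exact mem_of_mem_nhds (hv i)
  obtain ⟨s₀, hs₀⟩ := hp
  have hne : ∃ x, s₀.1 x ≠ φ x := by
    by_contra hcon
    push Not at hcon
    apply hφ
    have : s₀.1 = φ := funext hcon
    rw [← this]
    exact s₀.2
  obtain ⟨x, hx⟩ := hne
  -- neighbourhood of s₀
  have hU : {s : ↥{f : X → ℝ | Continuous f} | s.1 x ≠ φ x} ∈ 𝓝 s₀ := by
    have hcont : Continuous fun s : ↥{f : X → ℝ | Continuous f} => s.1 x :=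
      (continuous_apply x).comp continuous_subtype_val
    exact (isOpen_ne.preimage hcont).mem_nhds hx
  rw [hg.isInducing.nhds_eq_comap, Filter.mem_comap] at hU
  obtain ⟨t, ht, htU⟩ := hU
  rw [nhds_pi, Filter.mem_pi] at ht
  obtain ⟨J, hJ, v, hv, hvt⟩ := ht
  obtain ⟨s, hs, hsx⟩ := hagree J hJ {x} (countable_singleton x)
  have : s ∈ {s : ↥{f : X → ℝ | Continuous f} | s.1 x ≠ φ x} := by
    apply htU
    apply hvt
    intro i hi
    rw [hs i hi, ← hs₀]
    exact mem_of_mem_nhds (hv i)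
  exact this (hsx x rfl)

end Pool.Agent.CpDisc
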