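import Mathlib
import Pool.Agent.CpDisc.Anti
import Pool.Agent.CpDisc.Embed

/-! The space of the counterexample. -/

open Set Cardinal Topology

universe u

namespace Pool.Agent.CpDisc

/-- the index set -/
abbrev EE : Type u := ∀ n, Lad.{u} n

/-- the sum of the finite beth cardinals -/
noncomputable def bO : Cardinal.{u} := Cardinal.sum (fun n : ℕ => bt.{u} n)

lemma bt_le_bO (n : ℕ) : bt.{u} n ≤ bO.{u} := by
  exact le_sum (fun n : ℕ => bt.{u} n) n

lemma aleph0_le_bO : ℵ₀ ≤ bO.{u} := (aleph0_le_bt 0).trans (bt_le_bO 0)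

lemma sum_le_bO {ι : Type} [Countable ι] (c : ι → Cardinal.{u}) (hc : ∀ i, c i ≤ bO.{u}) :
    Cardinal.sum c ≤ bO.{u} := by
  calc Cardinal.sum c ≤ Cardinal.sum (fun _ : ι => bO.{u}) := sum_le_sum _ _ hc
    _ = lift.{u} #ι * bO.{u} := by
        rw [sum_const, lift_uzero]
    _ ≤ bO.{u} * bO.{u} := by
        gcongr
        refine le_trans ?_ aleph0_le_bO
        rw [lift_le_aleph0]
        exact mk_le_aleph0
    _ = bO.{u} := mul_eq_self aleph0_le_bO

lemma exists_escape (B : Set EE.{u}) (hB : #B ≤ bO.{u}) : ∃ f : EE.{u}, ∀ g ∈ B, ¬ f ≤ g := by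
  classical
  have h1 : #(Σ n : ℕ, (bt.{u} n).out) = bO.{u} := by
    rw [mk_sigma]
    simp [bO]
  rw [← h1] at hB
  obtain ⟨j⟩ := hB
  have h2 : ∀ n, ∃ b : Lad.{u} n, ∀ g : B, (j g).1 = n → g.1 n < b := by
    intro n
    have h3 : #{g : B | (j g).1 = n} ≤ bt.{u} n := by
      rw [← mk_out (bt.{u} n)]
      refine mk_le_of_injective
        (f := fun g : {g : B | (j g).1 = n} => (cast (by rw [g.2]) (j g.1).2 : (bt.{u} n).out)) ?_
      intro g g' hgg
      apply Subtype.ext
      apply j.injective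
      have e1 : (j g.1).1 = (j g'.1).1 := g.2.trans g'.2.symm
      refine Sigma.ext e1 ?_
      have := heq_of_eq hgg
      exact (cast_heq _ _).symm.trans (this.trans (cast_heq _ _))
    obtain ⟨b, hb⟩ := exists_bound n ((fun g : B => g.1 n) '' {g : B | (j g).1 = n})
      (mk_image_le.trans h3)
    refine ⟨b, fun g hg => hb _ ⟨g, hg, rfl⟩⟩
  choose f hf using h2
  refine ⟨f, fun g hg hfg => ?_⟩
  have := hf _ ⟨g, hg⟩ rfl
  exact absurd (hfg _) (not_le.2 this)

lemma exists_sup {ι : Type*} [Countable ι] (C : ι → EE.{u}) : ∃ h : EE.{u}, ∀ i, C i ≤ h := by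
  have h1 : ∀ n, ∃ b : Lad.{u} n, ∀ i, C i n < b := by
    intro n
    obtain ⟨b, hb⟩ := exists_bound n (range fun i => C i n) (by
      have : (range fun i => C i n).Countable := countable_range _
      exact (le_aleph0_iff_set_countable.2 this).trans (aleph0_le_bt n))
    exact ⟨b, fun i => hb _ ⟨i, rfl⟩⟩
  choose b hb using h1
  exact ⟨b, fun i n => (hb n i).le⟩

/-- `x g` is determined by the first `m` coordinates of `g` and by which members of `Q` are
below `g` -/
def Det (m : ℕ) (Q : Finset EE.{u}) (x : EE.{u} → Bool) : Prop :=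
  ∀ g g' : EE.{u}, (∀ i, i < m → g i = g' i) → (∀ f ∈ Q, (f ≤ g ↔ f ≤ g')) → x g = x g'

lemma Det.mono {m m' : ℕ} {Q Q' : Finset EE.{u}} {x : EE.{u} → Bool} (h : Det m Q x)
    (hm : m ≤ m') (hQ : Q ⊆ Q') : Det m' Q' x :=
  fun g g' h1 h2 => h g g' (fun i hi => h1 i (hi.trans_le hm)) (fun f hf => h2 f (hQ hf))

/-- the space -/
def XS : Set (EE.{u} → Bool) :=
  {x | (∃ m Q, Det m Q x) ∧ ∃ h, ∀ g, h ≤ g → x g = x h}

open Classical in
/-- removing the cone above `f` -/
noncomputable def cut (f : EE.{u}) (x : EE.{u} → Bool) : EE.{u} → Bool :=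
  fun g => if f ≤ g then false else x g

lemma cut_cut (f : EE.{u}) (x : EE.{u} → Bool) : cut f (cut f x) = cut f x := by
  funext g
  by_cases h : f ≤ g <;> simp [cut, h]

lemma cut_le {f : EE.{u}} {x : EE.{u} → Bool} {g : EE.{u}} (h : cut f x g = true) :
    ¬ f ≤ g ∧ x g = true := by
  by_cases hfg : f ≤ g
  · simp [cut, hfg] at h
  · simp only [cut, hfg, if_false] at h
    exact ⟨hfg, h⟩

lemma cut_apply {f : EE.{u}} {x : EE.{u} → Bool} {g : EE.{u}} (h : ¬ f ≤ g) : cut f x g = x g := by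
  simp [cut, h]

lemma Det.cut {m : ℕ} {Q : Finset EE.{u}} {x : EE.{u} → Bool} (h : Det m Q x) (f : EE.{u}) :
    ∃ Q', Det m Q' (cut f x) := by
  classical
  refine ⟨insert f Q, ?_⟩
  intro g g' h1 h2
  have h3 := h2 f (Finset.mem_insert_self _ _)
  have h4 := h g g' h1 (fun q hq => h2 q (Finset.mem_insert_of_mem hq))
  by_cases hfg : f ≤ g
  · have hfg' := h3.1 hfg
    simp [CpDisc.cut, hfg, hfg']
  · have hfg' : ¬ f ≤ g' := fun h' => hfg (h3.2 h')
    simp [CpDisc.cut, hfg, hfg', h4]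

lemma cut_mem {m : ℕ} {Q : Finset EE.{u}} {x : EE.{u} → Bool} (h : Det m Q x) (f : EE.{u}) :
    cut f x ∈ XS.{u} := by
  obtain ⟨Q', h'⟩ := h.cut f
  refine ⟨⟨m, Q', h'⟩, f, ?_⟩
  intro g hg
  simp [cut, hg]

/-- the cut as a map of the space -/
noncomputable def cutX (f : EE.{u}) (x : XS.{u}) : XS.{u} :=
  ⟨cut f x.1, by
    obtain ⟨⟨m, Q, h⟩, -⟩ := x.2
    exact cut_mem h f⟩

lemma zero_mem : (fun _ => false) ∈ XS.{u} :=
  ⟨⟨0, ∅, fun _ _ _ _ => rfl⟩, Classical.arbitrary _, fun _ _ => rfl⟩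

/-- the zero -/
noncomputable def zeroX : XS.{u} := ⟨fun _ => false, zero_mem⟩

/-- translation -/
noncomputable def xorX (a x : XS.{u}) : XS.{u} :=
  ⟨fun g => xor (a.1 g) (x.1 g), by
    classical
    obtain ⟨⟨m, Q, h⟩, k, hk⟩ := x.2
    obtain ⟨⟨m', Q', h'⟩, k', hk'⟩ := a.2
    refine ⟨⟨max m m', Q ∪ Q', ?_⟩, ?_⟩
    · intro g g' h1 h2
      have e1 := h.mono (le_max_left m m') (Finset.subset_union_left (s₂ := Q')) g g' h1 h2
      have e2 := h'.mono (le_max_right m m') (Finset.subset_union_right (s₁ := Q)) g g' h1 h2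
      show xor (a.1 g) (x.1 g) = xor (a.1 g') (x.1 g')
      rw [e1, e2]
    · obtain ⟨l, hl⟩ := exists_sup (fun b : Bool => if b then k else k')
      have hl1 : k ≤ l := by simpa using hl true
      have hl2 : k' ≤ l := by simpa using hl false
      refine ⟨l, fun g hg => ?_⟩
      show xor (a.1 g) (x.1 g) = xor (a.1 l) (x.1 l)
      rw [hk g (hl1.trans hg), hk' g (hl2.trans hg), hk l hl1, hk' l hl2]⟩

lemma xorX_xorX (a x : XS.{u}) : xorX a (xorX a x) = x := by
  apply Subtype.ext
  funext g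
  simp [xorX]

lemma xorX_zero (a : XS.{u}) : xorX a zeroX = a := by
  apply Subtype.ext
  funext g
  simp [xorX, zeroX]

lemma continuous_xorX (a : XS.{u}) : Continuous (xorX a) := by
  refine Continuous.subtype_mk (continuous_pi fun g => ?_) _
  have h1 : Continuous fun x : XS.{u} => x.1 g := (continuous_apply g).comp continuous_subtype_val
  exact (continuous_of_discreteTopology (f := fun b : Bool => xor (a.1 g) b)).comp h1

lemma cutX_xorX (f : EE.{u}) (a x : XS.{u}) :
    cutX f (xorX a (cutX f x)) = cutX f (xorX a x) := by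
  apply Subtype.ext
  funext g
  by_cases h : f ≤ g <;> simp [cutX, xorX, cut, h]

/-- continuity in terms of finite sets of coordinates -/
lemma exists_finset {G : XS.{u} → ℝ} {x : XS.{u}} (hG : ContinuousAt G x) {ε : ℝ} (hε : 0 < ε) :
    ∃ K : Finset EE.{u}, ∀ y : XS.{u}, (∀ k ∈ K, y.1 k = x.1 k) → |G y - G x| < ε := by
  have h1 : {y | |G y - G x| < ε} ∈ 𝓝 x := by
    have h0 := hG (Metric.ball_mem_nhds (G x) hε)
    rw [Filter.mem_map] at h0
    refine Filter.mem_of_superset h0 ?_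
    intro y hy
    simpa [Real.dist_eq] using hy
  rw [mem_nhds_subtype] at h1
  obtain ⟨V, hV, hVU⟩ := h1
  rw [nhds_pi, Filter.mem_pi] at hV
  obtain ⟨J, hJ, t, ht, htV⟩ := hV
  refine ⟨hJ.toFinset, fun y hy => ?_⟩
  apply hVU
  apply htV
  intro i hi
  rw [hy i (by simpa using hi)]
  exact mem_of_mem_nhds (ht i)

lemma continuousAt_of_finset {G : XS.{u} → ℝ} {x : XS.{u}}
    (h : ∀ ε : ℝ, 0 < ε → ∃ K : Finset EE.{u}, ∀ y : XS.{u}, (∀ k ∈ K, y.1 k = x.1 k) →
      |G y - G x| ≤ ε) : ContinuousAt G x := by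
  rw [ContinuousAt, Metric.tendsto_nhds]
  intro ε hε
  obtain ⟨K, hK⟩ := h (ε / 2) (half_pos hε)
  have h1 : {y : XS.{u} | ∀ k ∈ K, y.1 k = x.1 k} ∈ 𝓝 x := by
    have : {y : XS.{u} | ∀ k ∈ K, y.1 k = x.1 k} = ⋂ k ∈ K, {y : XS.{u} | y.1 k = x.1 k} := by
      ext y; simp
    rw [this]
    refine (Filter.biInter_finset_mem K).2 fun k _ => ?_
    have hc : Continuous fun y : XS.{u} => y.1 k := (continuous_apply k).comp continuous_subtype_val
    have : IsOpen {y : XS.{u} | y.1 k = x.1 k} := (isOpen_discrete {x.1 k}).preimage hc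
    exact this.mem_nhds rfl
  filter_upwards [h1] with y hy
  rw [Real.dist_eq]
  exact (hK y hy).trans_lt (half_lt_self hε)

open Classical in
/-- the eventual value -/
noncomputable def phi (x : XS.{u}) : ℝ := if ∃ h, ∀ g, h ≤ g → x.1 g = true then 1 else 0

lemma phi_agree (C : Set XS.{u}) (hC : C.Countable) :
    ∃ h : XS.{u} → ℝ, Continuous h ∧ ∀ x ∈ C, h x = phi x := by
  classical
  have := hC.to_subtype
  have hex : ∀ x : XS.{u}, ∃ h : EE.{u}, ∀ g, h ≤ g → x.1 g = x.1 h := fun x => x.2.2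
  choose h hh using hex
  obtain ⟨l, hl⟩ := exists_sup (fun x : C => h x.1)
  refine ⟨fun x => if x.1 l = true then 1 else 0, ?_, ?_⟩
  · have hc : Continuous fun y : XS.{u} => y.1 l :=
      (continuous_apply l).comp continuous_subtype_val
    exact (continuous_of_discreteTopology (f := fun b : Bool => if b = true then (1 : ℝ) else 0)).comp hc
  · intro x hx
    have hxl : h x ≤ l := hl ⟨x, hx⟩
    have h1 : ∀ g, l ≤ g → x.1 g = x.1 l := by
      intro g hg
      rw [hh x g (hxl.trans hg), hh x l hxl]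
    unfold phi
    show (if x.1 l = true then (1 : ℝ) else 0) = _
    by_cases h2 : x.1 l = true
    · rw [if_pos h2, if_pos ⟨l, fun g hg => (h1 g hg).trans h2⟩]
    · rw [if_neg h2, if_neg]
      rintro ⟨l', hl'⟩
      obtain ⟨k, hk⟩ := exists_sup (fun b : Bool => if b then l else l')
      have hk1 : l ≤ k := by simpa using hk true
      have hk2 : l' ≤ k := by simpa using hk false
      apply h2
      rw [← h1 k hk1, hl' k hk2]

lemma not_continuous_phi : ¬ Continuous phi.{u} := by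
  classical
  intro hcont
  obtain ⟨K, hK⟩ := exists_finset (hcont.continuousAt (x := zeroX.{u})) (zero_lt_one)
  obtain ⟨f, hf⟩ := exists_escape (K : Set EE.{u}) (by
    have : (K : Set EE.{u}).Countable := K.countable_toSet
    exact (le_aleph0_iff_set_countable.2 this).trans aleph0_le_bO)
  have hmem : (fun g => decide (f ≤ g)) ∈ XS.{u} := by
    refine ⟨⟨0, {f}, ?_⟩, f, ?_⟩
    · intro g g' _ h2
      have := h2 f (by simp)
      simp [this]
    · intro g hg
      simp [hg]
  have h1 := hK ⟨_, hmem⟩ (by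
    intro k hk
    simp [zeroX, hf k hk])
  have h2 : phi ⟨_, hmem⟩ = 1 := by
    unfold phi
    rw [if_pos]
    exact ⟨f, fun g hg => by simp [hg]⟩
  have h3 : phi zeroX.{u} = 0 := by
    unfold phi
    rw [if_neg]
    rintro ⟨h, hh⟩
    have := hh h le_rfl
    simp [zeroX] at this
  rw [h2, h3] at h1
  norm_num at h1

lemma dense_XS : Dense XS.{u} := by
  classical
  intro y
  rw [mem_closure_iff_nhds]
  intro t ht
  rw [nhds_pi, Filter.mem_pi] at ht
  obtain ⟨J, hJ, v, hv, hvt⟩ := ht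
  -- separating index
  have hsep : ∀ p : EE.{u} × EE.{u}, ∃ n : ℕ, p.1 ≠ p.2 → ∃ i, i < n ∧ p.1 i ≠ p.2 i := by
    intro p
    by_cases h : p.1 = p.2
    · exact ⟨0, fun h' => absurd h h'⟩
    · obtain ⟨i, hi⟩ := Function.ne_iff.1 h
      exact ⟨i + 1, fun _ => ⟨i, Nat.lt_succ_self i, hi⟩⟩
  choose n hn using hsep
  set m : ℕ := (hJ.toFinset ×ˢ hJ.toFinset).sup n + 1 with hm
  have hm' : ∀ a ∈ J, ∀ b ∈ J, (∀ i, i < m → a i = b i) → a = b := by
    intro a ha b hb hab
    by_contra hne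
    obtain ⟨i, hi, hi'⟩ := hn (a, b) hne
    refine hi' (hab i (hi.trans_le ?_))
    have : n (a, b) ≤ (hJ.toFinset ×ˢ hJ.toFinset).sup n :=
      Finset.le_sup (f := n) (Finset.mk_mem_product (by simpa using ha) (by simpa using hb))
    omega
  let x : EE.{u} → Bool := fun g => decide (∃ k ∈ J, y k = true ∧ ∀ i, i < m → g i = k i)
  have hx : x ∈ XS.{u} := by
    refine ⟨⟨m, ∅, ?_⟩, ?_⟩
    · intro g g' h1 _
      simp only [x]
      congr 1
      apply propext
      refine exists_congr fun k => and_congr_right fun _ => and_congr_right fun _ => ?_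
      refine forall_congr' fun i => ?_
      constructor
      · intro h hi
        rw [← h1 i hi]
        exact h hi
      · intro h hi
        rw [h1 i hi]
        exact h hi
    · have := hJ.to_subtype
      obtain ⟨f, hf⟩ := exists_escape J ((le_aleph0_iff_set_countable.2 hJ.countable).trans aleph0_le_bO)
      obtain ⟨b, hb⟩ := exists_bound 0 ((fun k : EE.{u} => k 0) '' J) (by
        exact (le_aleph0_iff_set_countable.2 (hJ.countable.image _)).trans (aleph0_le_bt 0))
      let h : EE.{u} := Function.update f 0 b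
      have hh : ∀ g, h ≤ g → x g = false := by
        intro g hg
        simp only [x, decide_eq_false_iff_not]
        rintro ⟨k, hk, -, hk'⟩
        have h1 := hk' 0 (by omega)
        have h2 := hb _ ⟨k, hk, rfl⟩
        have h3 := hg 0
        simp only [h, Function.update_self] at h3
        simp only at h2
        rw [← h1] at h2
        exact absurd h3 (not_le.2 h2)
      refine ⟨h, fun g hg => ?_⟩
      rw [hh g hg, hh h le_rfl]
  refine ⟨x, hvt ?_, hx⟩
  intro i hi
  have : x i = y i := by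
    simp only [x]
    rcases hyi : y i with _ | _
    · simp only [decide_eq_false_iff_not]
      rintro ⟨k, hk, hk1, hk2⟩
      have := hm' i hi k hk hk2
      rw [← this, hyi] at hk1
      exact absurd hk1 (by simp)
    · simp only [decide_eq_true_eq]
      exact ⟨i, hi, hyi, fun _ _ => rfl⟩
  rw [this]
  exact mem_of_mem_nhds (hv i)

end Pool.Agent.CpDisc
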