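import Mathlib
import Pool.Agent.CpDisc.Space

/-! Discrete sets of continuous functions on the space are small. -/

open Set Cardinal Topology Filter

universe u

namespace Pool.Agent.CpDisc

/-- initial parts -/
abbrev TT (m : ℕ) : Type u := ∀ i : Fin m, Lad.{u} i

/-- restriction -/
def res (m : ℕ) (g : EE.{u}) : TT.{u} m := fun i => g i

lemma mk_TT_le (m : ℕ) : #(TT.{u} m) ≤ bt.{u} m := by
  rw [mk_pi]
  calc prod (fun i : Fin m => #(Lad.{u} i)) ≤ prod (fun _ : Fin m => bt.{u} m) := by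
        refine prod_le_prod _ _ fun i => (mk_Lad_le _).trans ?_
        exact bt_strictMono.monotone (by omega)
    _ = bt.{u} m ^ m := by
        rw [prod_const]
        simp
    _ ≤ bt.{u} m := power_nat_le (aleph0_le_bt m)

/-- the codes -/
abbrev DataT : Type u :=
  Σ s : ℕ × ℕ × ℕ × ℕ,
    ((Fin s.1 × TT.{u} s.2.2.1 × (Fin s.2.2.2 → Prop)) → Bool) ×
      (Fin s.2.2.2 → TT.{u} s.2.2.1) × (Fin s.1 → ℤ)

lemma mk_data_le : #DataT.{u} ≤ bO.{u} := by
  rw [mk_sigma]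
  refine sum_le_bO _ fun s => ?_
  obtain ⟨n, N, m, r⟩ := s
  have h1 : #((Fin n × TT.{u} m × (Fin r → Prop)) → Bool) ≤ bt.{u} (m + 1) := by
    have h2 : #(Fin n × TT.{u} m × (Fin r → Prop)) ≤ bt.{u} m := by
      rw [mk_prod, mk_prod]
      have e1 : lift.{u} #(Fin n) ≤ bt.{u} m := by
        refine le_trans ?_ (aleph0_le_bt m)
        rw [lift_le_aleph0]
        exact mk_le_aleph0
      have e2 : lift.{u} #(Fin r → Prop) ≤ bt.{u} m := by
        refine le_trans ?_ (aleph0_le_bt m)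
        rw [lift_le_aleph0]
        exact mk_le_aleph0
      have e3 : lift.{0} #(TT.{u} m) ≤ bt.{u} m := by
        rw [lift_uzero]
        exact mk_TT_le m
      calc lift.{u} #(Fin n) * lift.{0} (lift.{0} #(TT.{u} m) * lift.{u} #(Fin r → Prop))
          ≤ bt.{u} m * lift.{0} (bt.{u} m * bt.{u} m) :=
            mul_le_mul' e1 (lift_le.2 (mul_le_mul' e3 e2))
        _ = bt.{u} m := by
            rw [lift_uzero, mul_eq_self (aleph0_le_bt m), mul_eq_self (aleph0_le_bt m)]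
    rw [mk_arrow, bt_succ]
    simp only [mk_bool, lift_ofNat, lift_uzero]
    exact power_le_power_left two_ne_zero h2
  have h3 : #(Fin r → TT.{u} m) ≤ bt.{u} m := by
    rw [mk_arrow]
    simp only [lift_uzero, mk_fin, lift_natCast]
    calc #(TT.{u} m) ^ (r : Cardinal.{u}) ≤ bt.{u} m ^ (r : Cardinal.{u}) :=
          power_le_power_right (mk_TT_le m)
      _ ≤ bt.{u} m := by
          have := power_nat_le (n := r) (aleph0_le_bt.{u} m)
          exact_mod_cast this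
  have h4 : lift.{u} #(Fin n → ℤ) ≤ bt.{u} m := by
    refine le_trans ?_ (aleph0_le_bt m)
    rw [lift_le_aleph0]
    exact mk_le_aleph0
  rw [mk_prod, mk_prod]
  calc lift.{u} #((Fin n × TT.{u} m × (Fin r → Prop)) → Bool) *
        lift.{u} (lift.{0} #(Fin r → TT.{u} m) * lift.{u} #(Fin n → ℤ))
      ≤ bt.{u} (m + 1) * (bt.{u} m * bt.{u} m) := by
        rw [lift_id, lift_id, lift_uzero]
        gcongr
    _ ≤ bO.{u} * (bO.{u} * bO.{u}) := by
        gcongr
        · exact bt_le_bO _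
        · exact bt_le_bO _
        · exact bt_le_bO _
    _ = bO.{u} := by
        rw [mul_eq_self aleph0_le_bO, mul_eq_self aleph0_le_bO]

section

variable (D : Set (XS.{u} → ℝ))

/-- the coding relation -/
def Codes (d : D) (δ : DataT.{u}) (F : ℕ → EE.{u}) : Prop :=
  ∃ a : Fin δ.1.1 → XS.{u},
    (∀ d' : D, (∀ p, |d'.1 (a p) - d.1 (a p)| < 1 / ((δ.1.2.1 : ℝ) + 1)) → d' = d) ∧
    (∀ p g, (a p).1 g = δ.2.1 (p, res δ.1.2.2.1 g, fun q : Fin δ.1.2.2.2 => F q ≤ g)) ∧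
    (∀ q : Fin δ.1.2.2.2, res δ.1.2.2.1 (F q) = δ.2.2.1 q) ∧
    (∀ p, ⌊d.1 (a p) * (3 * ((δ.1.2.1 : ℝ) + 1))⌋ = δ.2.2.2 p) ∧
    ∃ K : Finset EE.{u},
      (∀ p (y : XS.{u}), (∀ k ∈ K, y.1 k = (a p).1 k) →
        |d.1 y - d.1 (a p)| < 1 / (3 * ((δ.1.2.1 : ℝ) + 1))) ∧
      ∀ g ∈ K, ∀ q : Fin δ.1.2.2.2, ¬ F q ≤ g → ∃ i : Fin δ.1.2.2.1, ¬ F q i ≤ g i

variable {D}

lemma code_inj {d d' : D} {δ : DataT.{u}} {F F' : ℕ → EE.{u}} (h : Codes D d δ F)
    (h' : Codes D d' δ F') (hFF : ∀ q, F' q ≤ F q) : d' = d := by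
  obtain ⟨⟨n, N, m, r⟩, β, t, z⟩ := δ
  obtain ⟨a, h1, h2, h3, h4, K, h5, h6⟩ := h
  obtain ⟨a', h1', h2', h3', h4', -⟩ := h'
  dsimp only at a a' h1 h2 h3 h4 h5 h6 h1' h2' h3' h4'
  symm
  apply h1'
  intro p
  have hpos : (0 : ℝ) < (N : ℝ) + 1 := by positivity
  have e1 : ∀ k ∈ K, (a' p).1 k = (a p).1 k := by
    intro k hk
    rw [h2, h2']
    congr 3
    funext q
    apply propext
    constructor
    · intro hq
      by_contra hno
      obtain ⟨i, hi⟩ := h6 k hk q hno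
      apply hi
      have e2 := congrFun (h3 q) i
      have e3 := congrFun (h3' q) i
      simp only [res] at e2 e3
      rw [e2, ← e3]
      exact hq i
    · intro hq
      exact (hFF q).trans hq
  have e2 := h5 p (a' p) e1
  have e3 : |d.1 (a p) - d'.1 (a' p)| < 1 / (3 * ((N : ℝ) + 1)) := by
    have e4 := Int.abs_sub_lt_one_of_floor_eq_floor ((h4 p).trans (h4' p).symm)
    rw [← sub_mul, abs_mul, abs_of_pos (by positivity : (0 : ℝ) < 3 * ((N : ℝ) + 1))] at e4
    rw [lt_div_iff₀ (by positivity)]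
    exact e4
  have e5 : |d.1 (a' p) - d'.1 (a' p)| ≤ |d.1 (a' p) - d.1 (a p)| + |d.1 (a p) - d'.1 (a' p)| :=
    abs_sub_le _ _ _
  have e6 : 1 / (3 * ((N : ℝ) + 1)) + 1 / (3 * ((N : ℝ) + 1)) < 1 / ((N : ℝ) + 1) := by
    rw [← add_div, div_lt_div_iff₀ (by positivity) hpos]
    nlinarith
  linarith

lemma exists_code (hD : ∀ d ∈ D, Continuous d) (hdisc : DiscreteTopology D) (d : D) :
    ∃ δ F, Codes D d δ F := by
  classical
  -- discreteness
  have h1 : {d} ∈ 𝓝 d := by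
    rw [nhds_discrete]
    exact mem_pure.2 rfl
  rw [mem_nhds_subtype] at h1
  obtain ⟨V, hV, hVd⟩ := h1
  rw [nhds_pi, Filter.mem_pi] at hV
  obtain ⟨J, hJ, t, ht, htV⟩ := hV
  have h2 : ∀ x : XS.{u}, ∃ N : ℕ, ∀ y, |y - d.1 x| < 1 / ((N : ℝ) + 1) → y ∈ t x := by
    intro x
    obtain ⟨ε, hε, hεt⟩ := Metric.mem_nhds_iff.1 (ht x)
    obtain ⟨N, hN⟩ := exists_nat_one_div_lt hε
    refine ⟨N, fun y hy => hεt ?_⟩
    rw [Metric.mem_ball, Real.dist_eq]
    exact hy.trans hN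
  choose N hN using h2
  set N₀ : ℕ := hJ.toFinset.sup N with hN₀
  set n : ℕ := hJ.toFinset.card with hn
  let a : Fin n → XS.{u} := fun p => (hJ.toFinset.equivFin.symm p).1
  have ha : ∀ d' : D, (∀ p, |d'.1 (a p) - d.1 (a p)| < 1 / ((N₀ : ℝ) + 1)) → d' = d := by
    intro d' hd'
    have : d' ∈ (Subtype.val ⁻¹' V : Set D) := by
      apply htV
      intro x hx
      apply hN x
      have hx' : x ∈ hJ.toFinset := by simpa using hx
      have e1 := hd' (hJ.toFinset.equivFin ⟨x, hx'⟩)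
      simp only [a, Equiv.symm_apply_apply] at e1
      refine e1.trans_le ?_
      have e2 : N x ≤ N₀ := Finset.le_sup hx'
      have e3 : (N x : ℝ) ≤ N₀ := by exact_mod_cast e2
      gcongr
    exact hVd this
  -- continuity
  have hpos : (0 : ℝ) < 1 / (3 * ((N₀ : ℝ) + 1)) := by positivity
  have h3 : ∀ p, ∃ K : Finset EE.{u}, ∀ y : XS.{u}, (∀ k ∈ K, y.1 k = (a p).1 k) →
      |d.1 y - d.1 (a p)| < 1 / (3 * ((N₀ : ℝ) + 1)) := fun p =>
    exists_finset ((hD d.1 d.2).continuousAt) hpos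
  choose K hK using h3
  set K₀ : Finset EE.{u} := Finset.univ.biUnion K with hK₀
  have h4 : ∀ p, ∃ m Q, Det m Q (a p).1 := fun p => (a p).2.1
  choose m Q hmQ using h4
  set Q₀ : Finset EE.{u} := Finset.univ.biUnion Q with hQ₀
  have h5 : ∀ s : EE.{u} × EE.{u}, ∃ i : ℕ, ¬ s.1 ≤ s.2 → ¬ s.1 i ≤ s.2 i := by
    intro s
    by_cases h : s.1 ≤ s.2
    · exact ⟨0, fun h' => absurd h h'⟩
    · have : ∃ i, ¬ s.1 i ≤ s.2 i := by
        by_contra hno
        push Not at hno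
        exact h hno
      obtain ⟨i, hi⟩ := this
      exact ⟨i, fun _ => hi⟩
  choose w hw using h5
  set m₀ : ℕ := max (Finset.univ.sup m) ((Q₀ ×ˢ K₀).sup w + 1) with hm₀
  have hdet : ∀ p, Det m₀ Q₀ (a p).1 := by
    intro p
    refine (hmQ p).mono ?_ ?_
    · exact (Finset.le_sup (f := m) (Finset.mem_univ p)).trans (le_max_left _ _)
    · exact Finset.subset_biUnion_of_mem Q (Finset.mem_univ p)
  set r : ℕ := Q₀.card with hr
  let F : ℕ → EE.{u} := fun q =>
    if h : q < r then (Q₀.equivFin.symm ⟨q, h⟩).1 else Classical.arbitrary _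
  have hF1 : ∀ q : Fin r, F q = (Q₀.equivFin.symm q).1 := by
    intro q
    simp [F, q.2]
  have hF2 : ∀ f ∈ Q₀, ∃ q : Fin r, F q = f := by
    intro f hf
    refine ⟨Q₀.equivFin ⟨f, hf⟩, ?_⟩
    rw [hF1]
    simp
  let rep : Fin n × TT.{u} m₀ × (Fin r → Prop) → Bool := fun c =>
    if h : ∃ g : EE.{u}, res m₀ g = c.2.1 ∧ (fun q : Fin r => F q ≤ g) = c.2.2 then
      (a c.1).1 h.choose else false
  refine ⟨⟨(n, N₀, m₀, r), rep, fun q => res m₀ (F q),
    fun p => ⌊d.1 (a p) * (3 * ((N₀ : ℝ) + 1))⌋⟩, F, a, ha, ?_, fun _ => rfl, fun _ => rfl,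
    K₀, ?_, ?_⟩
  · intro p g
    dsimp only
    have hex : ∃ g' : EE.{u}, res m₀ g' = res m₀ g ∧
        (fun q : Fin r => F q ≤ g') = (fun q : Fin r => F q ≤ g) := ⟨g, rfl, rfl⟩
    simp only [rep]
    rw [dif_pos hex]
    obtain ⟨e1, e2⟩ := hex.choose_spec
    apply hdet p
    · intro i hi
      exact (congrFun e1 ⟨i, hi⟩).symm
    · intro f hf
      obtain ⟨q, rfl⟩ := hF2 f hf
      exact (iff_of_eq (congrFun e2 q)).symm
  · intro p y hy
    dsimp only
    apply hK p y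
    intro k hk
    exact hy k (Finset.subset_biUnion_of_mem K (Finset.mem_univ p) hk)
  · intro g hg q hq
    dsimp only at q hq ⊢
    have e1 : F q ∈ Q₀ := by
      rw [hF1]
      exact (Q₀.equivFin.symm q).2
    have e2 := hw (F q, g) hq
    have e3 : w (F q, g) < m₀ := by
      have : w (F q, g) ≤ (Q₀ ×ˢ K₀).sup w :=
        Finset.le_sup (f := w) (Finset.mk_mem_product e1 hg)
      omega
    exact ⟨⟨_, e3⟩, e2⟩

theorem mk_discrete_le (hD : ∀ d ∈ D, Continuous d) (hdisc : DiscreteTopology D) :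
    #D ≤ bO.{u} := by
  have h := exists_code hD hdisc
  choose δ F hc using h
  have h1 : #D = #(Σ y : DataT.{u}, {d : D // δ d = y}) :=
    (mk_congr (Equiv.sigmaFiberEquiv δ)).symm
  rw [h1, mk_sigma]
  have h2 : ∀ y : DataT.{u}, #{d : D // δ d = y} ≤ bt.{u} 2 := by
    intro y
    refine mk_le_of_antichain (ι := ℕ × ℕ) (fun i => Lad.{u} i.2) (fun d i => F d.1 i.1 i.2) ?_
    intro b c hbc
    apply Subtype.ext
    have hcode : Codes D c.1 y (F c.1) := by
      have := hc c.1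
      rw [c.2] at this
      exact this
    have hcode' : Codes D b.1 y (F b.1) := by
      have := hc b.1
      rw [b.2] at this
      exact this
    exact code_inj hcode hcode' (fun q n => hbc (q, n))
  calc Cardinal.sum (fun y : DataT.{u} => #{d : D // δ d = y})
      ≤ Cardinal.sum (fun _ : DataT.{u} => bt.{u} 2) := sum_le_sum _ _ h2
    _ = #DataT.{u} * bt.{u} 2 := by rw [sum_const']
    _ ≤ bO.{u} * bO.{u} := by
        gcongr
        · exact mk_data_le
        · exact bt_le_bO 2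
    _ = bO.{u} := mul_eq_self aleph0_le_bO

end

end Pool.Agent.CpDisc
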