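import Mathlib
import Pool.Agent.CpDisc.Space

/-! The main lemma: functions not depending on the part above `f` which are continuous on
countable sets are continuous. -/

open Set Cardinal Topology Filter

universe u

namespace Pool.Agent.CpDisc

section

variable (f : EE.{u}) (Ψ : XS.{u} → ℝ)

/-- convergence along pointwise eventually constant sequences -/
lemma seq_lemma (h2 : ∀ C : Set XS.{u}, C.Countable →
      ∃ h : XS.{u} → ℝ, Continuous h ∧ ∀ x ∈ C, h x = Ψ x)
    (y : ℕ → XS.{u}) (x : XS.{u}) (hy : ∀ g : EE.{u}, ∀ᶠ j in atTop, (y j).1 g = x.1 g)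
    (ε : ℝ) (hε : ε < |Ψ x - Ψ zeroX|) : ∀ᶠ j in atTop, ε < |Ψ (y j) - Ψ zeroX| := by
  obtain ⟨h, hc, hh⟩ := h2 (insert x (range y)) ((countable_range y).insert x)
  have h3 : Tendsto y atTop (𝓝 x) := by
    rw [tendsto_subtype_rng, tendsto_pi_nhds]
    intro g
    refine tendsto_const_nhds.congr' ?_
    filter_upwards [hy g] with j hj
    exact hj.symm
  have h4 : Tendsto (fun j => |h (y j) - Ψ zeroX|) atTop (𝓝 |h x - Ψ zeroX|) := by
    have h5 : Tendsto (fun j => h (y j)) atTop (𝓝 (h x)) := (hc.tendsto x).comp h3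
    exact (h5.sub_const _).abs
  rw [hh x (mem_insert _ _)] at h4
  have h5 := h4.eventually (lt_mem_nhds hε)
  filter_upwards [h5] with j hj
  rwa [hh (y j) (mem_insert_of_mem _ (mem_range_self j))] at hj

lemma continuousAt_zero (h1 : ∀ x, Ψ (cutX f x) = Ψ x)
    (h2 : ∀ C : Set XS.{u}, C.Countable →
      ∃ h : XS.{u} → ℝ, Continuous h ∧ ∀ x ∈ C, h x = Ψ x) : ContinuousAt Ψ zeroX := by
  classical
  apply continuousAt_of_finset
  intro ε hε
  by_contra hcon
  push Not at hcon
  set W : Set XS.{u} := {x | cutX f x = x ∧ ε < |Ψ x - Ψ zeroX|} with hW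
  have hWcut : ∀ x ∈ W, ∀ g, x.1 g = true → ¬ f ≤ g := by
    intro x hx g hg
    have : cut f x.1 g = true := by
      have := congrArg (fun z : XS.{u} => z.1 g) hx.1
      simp only [cutX] at this
      rw [this, hg]
    exact (cut_le this).1
  have step0 : ∀ K : Finset EE.{u}, ∃ x ∈ W, ∀ k ∈ K, x.1 k = false := by
    intro K
    obtain ⟨y, hy, hy'⟩ := hcon K
    refine ⟨cutX f y, ⟨?_, ?_⟩, ?_⟩
    · apply Subtype.ext
      exact cut_cut f y.1
    · rw [h1]
      exact hy'
    · intro k hk
      have h3 := hy k hk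
      simp only [zeroX] at h3
      show cut f y.1 k = false
      by_cases hfk : f ≤ k
      · simp [cut, hfk]
      · rw [cut_apply hfk, h3]
  -- Step 1
  have step1 : ∃ k : ℕ, ∀ C : Set XS.{u}, C ⊆ W → C.Countable →
      ∃ g : Fin k → EE.{u}, ∀ x ∈ C, ∃ i, x.1 (g i) = true := by
    have hfin : ∀ C : Set XS.{u}, C ⊆ W → C.Countable →
        ∃ K : Finset EE.{u}, ∀ x ∈ C, ∃ k ∈ K, x.1 k = true := by
      intro C hCW hC
      obtain ⟨h, hc, hh⟩ := h2 (insert zeroX C) (hC.insert _)
      obtain ⟨K, hK⟩ := exists_finset (hc.continuousAt (x := zeroX.{u})) hε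
      refine ⟨K, fun x hx => ?_⟩
      by_contra hno
      push Not at hno
      have h3 := hK x (fun k hk => by simpa [zeroX] using hno k hk)
      rw [hh x (mem_insert_of_mem _ hx), hh zeroX (mem_insert _ _)] at h3
      exact absurd (hCW hx).2 (not_lt.2 h3.le)
    by_contra hno
    push Not at hno
    choose C hCW hCc hC using hno
    obtain ⟨K, hK⟩ := hfin (⋃ k, C k) (iUnion_subset hCW) (countable_iUnion hCc)
    obtain ⟨x, hx, hx'⟩ := hC K.card (fun i => (K.equivFin.symm i).1)
    obtain ⟨k, hk, hk'⟩ := hK x (mem_iUnion.2 ⟨_, hx⟩)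
    have := hx' (K.equivFin ⟨k, hk⟩)
    simp only [Equiv.symm_apply_apply] at this
    exact this hk'
  -- Step 2
  have step2 : ∃ k : ℕ, ∃ U : Fin k → Ultrafilter EE.{u}, ∀ x ∈ W, ∃ i, {g | x.1 g = true} ∈ U i := by
    obtain ⟨k, hk⟩ := step1
    have hk' : ∀ 𝒞 : Finset W, ∃ g : Fin k → EE.{u}, ∀ x ∈ 𝒞, ∃ i, x.1.1 (g i) = true := by
      intro 𝒞
      obtain ⟨g, hg⟩ := hk (Subtype.val '' (𝒞 : Set W)) (by
        rintro _ ⟨x, -, rfl⟩
        exact x.2) (𝒞.countable_toSet.image _)
      exact ⟨g, fun x hx => hg x.1 ⟨x, hx, rfl⟩⟩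
    choose G hG using hk'
    let V : Ultrafilter (Finset W) := Ultrafilter.of atTop
    refine ⟨k, fun i => V.map (fun 𝒞 => G 𝒞 i), ?_⟩
    intro x hx
    have h3 : ∀ᶠ 𝒞 in (V : Filter (Finset W)), ∃ i, x.1 (G 𝒞 i) = true := by
      have h4 : ∀ᶠ 𝒞 in (V : Filter (Finset W)), {(⟨x, hx⟩ : W)} ⊆ 𝒞 :=
        Ultrafilter.of_le _ (eventually_ge_atTop _)
      filter_upwards [h4] with 𝒞 h𝒞
      exact hG 𝒞 ⟨x, hx⟩ (h𝒞 (Finset.mem_singleton_self _))
    rw [Ultrafilter.eventually_exists_iff] at h3
    exact h3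
  -- Step 3
  set k := Nat.find step2 with hkdef
  obtain ⟨U, hU⟩ := Nat.find_spec step2
  have hmin : ∀ k' < Nat.find step2, ¬ ∃ U : Fin k' → Ultrafilter EE.{u},
      ∀ x ∈ W, ∃ i, {g | x.1 g = true} ∈ U i := fun k' hk' => Nat.find_min step2 hk'
  have step3 : ∀ i, ∃ x ∈ W, ∀ j, {g | x.1 g = true} ∈ U j → j = i := by
    generalize Nat.find step2 = n at U hU hmin
    intro i
    cases n with
    | zero => exact i.elim0
    | succ n =>
      have h3 := hmin n (Nat.lt_succ_self n)
      push Not at h3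
      obtain ⟨x, hx, hx'⟩ := h3 (fun j => U (i.succAbove j))
      refine ⟨x, hx, fun j hj => ?_⟩
      by_contra hji
      obtain ⟨l, hl⟩ := Fin.exists_succAbove_eq hji
      exact hx' l (by rw [hl]; exact hj)
  -- Step 4
  have step4 : ∀ i, ∀ V : ℕ → Set EE.{u}, (∀ j, V j ∈ U i) →
      (∀ j, ∃ m : ℕ, ∀ g g' : EE.{u}, (∀ n, n < m → g n = g' n) → (g ∈ V j ↔ g' ∈ V j)) →
      (∀ g, ¬ f ≤ g → ∀ᶠ j in atTop, g ∉ V j) → False := by
    intro i V hV hdet hev
    obtain ⟨x, hx, hxi⟩ := step3 i
    have hmem : ∀ j, (fun g => x.1 g && decide (g ∉ V j)) ∈ XS.{u} := by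
      intro j
      obtain ⟨⟨m, Q, hm⟩, -⟩ := x.2
      obtain ⟨m', hm'⟩ := hdet j
      refine ⟨⟨max m m', Q, ?_⟩, f, ?_⟩
      · intro g g' h3 h4
        have e1 := hm g g' (fun n hn => h3 n (hn.trans_le (le_max_left _ _))) h4
        have e2 := hm' g g' (fun n hn => h3 n (hn.trans_le (le_max_right _ _)))
        simp only [e1, e2]
      · intro g hg
        have e1 : x.1 g = false := by
          by_contra hne
          exact hWcut x hx g (by simpa using hne) hg
        have e2 : x.1 f = false := by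
          by_contra hne
          exact hWcut x hx f (by simpa using hne) le_rfl
        simp [e1, e2]
    let y : ℕ → XS.{u} := fun j => ⟨_, hmem j⟩
    have hyx : ∀ g : EE.{u}, ∀ᶠ j in atTop, (y j).1 g = x.1 g := by
      intro g
      by_cases hg : x.1 g = true
      · filter_upwards [hev g (hWcut x hx g hg)] with j hj
        simp [y, hj]
      · filter_upwards with j
        simp [y, hg]
    obtain ⟨j, hj⟩ := (seq_lemma Ψ h2 y x hyx ε hx.2).exists
    have hyW : y j ∈ W := by
      refine ⟨?_, hj⟩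
      apply Subtype.ext
      funext g
      by_cases hfg : f ≤ g
      · have e1 : x.1 g = false := by
          by_contra hne
          exact hWcut x hx g (by simpa using hne) hfg
        simp [cutX, cut, hfg, y, e1]
      · simp [cutX, cut, hfg]
    obtain ⟨l, hl⟩ := hU _ hyW
    have hli : l = i := by
      apply hxi
      refine Filter.mem_of_superset hl ?_
      intro g hg
      simp only [y, mem_ofPred_eq, Bool.and_eq_true] at hg
      exact hg.1
    rw [hli] at hl
    obtain ⟨g, hg1, hg2⟩ := (U i).nonempty_of_mem ((U i).inter_mem hl (hV j))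
    simp only [y, mem_ofPred_eq, Bool.and_eq_true, decide_eq_true_eq] at hg1
    exact hg1.2 hg2
  -- Step 5
  have step5 : ∀ i, ∀ n : ℕ, ∃ t : Lad.{u} n, {g : EE.{u} | g n = t} ∈ U i := by
    intro i n
    have hc : CountableInterFilter (((U i).map (fun g : EE.{u} => g n) : Ultrafilter (Lad.{u} n)) :
        Filter (Lad.{u} n)) := by
      constructor
      intro S hSc hS
      by_contra hno
      rcases S.eq_empty_or_nonempty with hSe | hSne
      · rw [hSe, sInter_empty] at hno
        exact hno Filter.univ_mem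
      obtain ⟨A, rfl⟩ := hSc.exists_eq_range hSne
      refine step4 i (fun j => {g | (∀ l, l ≤ j → g n ∈ A l) ∧ g n ∉ ⋂₀ range A}) ?_ ?_ ?_
      · intro j
        have e1 : {g : EE.{u} | ∀ l, l ≤ j → g n ∈ A l} ∈ (U i : Filter EE.{u}) := by
          have : {g : EE.{u} | ∀ l, l ≤ j → g n ∈ A l} =
              ⋂ l ∈ Finset.range (j + 1), {g : EE.{u} | g n ∈ A l} := by
            ext g
            simp
          rw [this]
          refine (Filter.biInter_finset_mem _).2 fun l _ => ?_
          exact hS (A l) ⟨l, rfl⟩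
        have e2 : {g : EE.{u} | g n ∉ ⋂₀ range A} ∈ (U i : Filter EE.{u}) := by
          have := Ultrafilter.compl_mem_iff_notMem.2 hno
          exact this
        exact Filter.inter_mem e1 e2
      · intro j
        refine ⟨n + 1, fun g g' hgg => ?_⟩
        have := hgg n (Nat.lt_succ_self n)
        simp only [mem_ofPred_eq, this]
      · intro g _
        by_cases hg : g n ∈ ⋂₀ range A
        · filter_upwards with j
          intro h
          exact h.2 hg
        · simp only [sInter_range, mem_iInter, not_forall] at hg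
          obtain ⟨l, hl⟩ := hg
          filter_upwards [eventually_ge_atTop l] with j hj
          intro h
          exact hl (h.1 l hj)
    exact good_of_le (n + 1) _ (mk_Lad_le n) _ hc
  choose t ht using step5
  have htm : ∀ i (m : ℕ), {g : EE.{u} | ∀ n, n < m → g n = t i n} ∈ U i := by
    intro i m
    have : {g : EE.{u} | ∀ n, n < m → g n = t i n} =
        ⋂ n ∈ Finset.range m, {g : EE.{u} | g n = t i n} := by
      ext g
      simp
    rw [this]
    exact (Filter.biInter_finset_mem _).2 fun n _ => ht i n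
  -- Step 6
  have step6 : ∀ i, ¬ f ≤ t i := by
    intro i hfi
    refine step4 i (fun j => {g | ∀ n, n < j → g n = t i n}) (htm i) ?_ ?_
    · intro j
      refine ⟨j, fun g g' hgg => ?_⟩
      simp only [mem_ofPred_eq]
      refine forall_congr' fun n => forall_congr' fun hn => ?_
      rw [hgg n hn]
    · intro g hg
      have hne : g ≠ t i := fun h => hg (h ▸ hfi)
      obtain ⟨n, hn⟩ := Function.ne_iff.1 hne
      filter_upwards [eventually_gt_atTop n] with j hj
      intro h
      exact hn (h n hj)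
  -- Step 7
  obtain ⟨x, hx, hxK⟩ := step0 (Finset.univ.image t)
  have hxt : ∀ i, x.1 (t i) = false := fun i => hxK _ (Finset.mem_image_of_mem _ (Finset.mem_univ i))
  obtain ⟨⟨m, Q, hm⟩, -⟩ := id x.2
  obtain ⟨top, htop⟩ := exists_sup (fun q : Q => q.1)
  let π : ℕ → EE.{u} → EE.{u} := fun j g n => if n < j then g n else top n
  have hπ1 : ∀ g, ∀ᶠ j in atTop, x.1 (π j g) = x.1 g := by
    intro g
    have e1 : ∀ q ∈ Q, ∀ᶠ j in atTop, (q ≤ π j g ↔ q ≤ g) := by
      intro q hq
      by_cases hqg : q ≤ g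
      · filter_upwards with j
        refine ⟨fun _ => hqg, fun _ n => ?_⟩
        by_cases hn : n < j
        · simp only [π, hn, if_true]
          exact hqg n
        · simp only [π, hn, if_false]
          exact htop ⟨q, hq⟩ n
      · have : ∃ n, ¬ q n ≤ g n := by
          by_contra hno
          push Not at hno
          exact hqg hno
        obtain ⟨n, hn⟩ := this
        filter_upwards [eventually_gt_atTop n] with j hj
        refine ⟨fun h => absurd (h n) ?_, fun h => absurd h hqg⟩
        simp only [π, hj, if_true]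
        exact hn
    have e2 : ∀ᶠ j in atTop, ∀ q ∈ Q, (q ≤ π j g ↔ q ≤ g) :=
      (Finset.eventually_all Q).2 e1
    filter_upwards [e2, eventually_ge_atTop m] with j hj hjm
    refine hm _ _ ?_ hj
    intro n hn
    simp only [π, hn.trans_le hjm, if_true]
  have hdetj : ∀ j, Det j ∅ (fun g => x.1 (π j g)) := by
    intro j g g' hgg _
    have : π j g = π j g' := by
      funext n
      by_cases hn : n < j
      · simp only [π, hn, if_true, hgg n hn]
      · simp only [π, hn, if_false]
    simp only [this]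
  let z : ℕ → XS.{u} := fun j => ⟨cut f (fun g => x.1 (π j g)), cut_mem (hdetj j) f⟩
  have hzx : ∀ g : EE.{u}, ∀ᶠ j in atTop, (z j).1 g = x.1 g := by
    intro g
    by_cases hfg : f ≤ g
    · have e1 : x.1 g = false := by
        by_contra hne
        exact hWcut x hx g (by simpa using hne) hfg
      filter_upwards with j
      simp [z, cut, hfg, e1]
    · filter_upwards [hπ1 g] with j hj
      simp only [z]
      rw [cut_apply hfg]
      exact hj
  have hev1 := seq_lemma Ψ h2 z x hzx ε hx.2
  have hev2 : ∀ᶠ j in atTop, ∀ i, (z j).1 (t i) = false := by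
    rw [eventually_all]
    intro i
    filter_upwards [hzx (t i)] with j hj
    rw [hj, hxt i]
  obtain ⟨j, hj1, hj2⟩ := (hev1.and hev2).exists
  have hzW : z j ∈ W := by
    refine ⟨?_, hj1⟩
    apply Subtype.ext
    exact cut_cut f _
  obtain ⟨l, hl⟩ := hU _ hzW
  obtain ⟨g, hg1, hg2⟩ := (U l).nonempty_of_mem ((U l).inter_mem hl (htm l j))
  have hg1' : cut f (fun g => x.1 (π j g)) g = true := hg1
  have hg3 : x.1 (π j g) = true := (cut_le hg1').2
  have hg4 : π j g = π j (t l) := by
    funext n
    by_cases hn : n < j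
    · simp only [π, hn, if_true]
      exact hg2 n hn
    · simp only [π, hn, if_false]
  have hg5 := hj2 l
  simp only [z] at hg5
  rw [cut_apply (step6 l)] at hg5
  rw [← hg4] at hg5
  rw [hg5] at hg3
  exact absurd hg3 (by simp)

theorem continuous_of_cut (h1 : ∀ x, Ψ (cutX f x) = Ψ x)
    (h2 : ∀ C : Set XS.{u}, C.Countable →
      ∃ h : XS.{u} → ℝ, Continuous h ∧ ∀ x ∈ C, h x = Ψ x) : Continuous Ψ := by
  rw [continuous_iff_continuousAt]
  intro a
  have h3 : ContinuousAt (fun x => Ψ (xorX a x)) zeroX := by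
    refine continuousAt_zero f _ ?_ ?_
    · intro x
      show Ψ (xorX a (cutX f x)) = Ψ (xorX a x)
      rw [← h1, cutX_xorX, h1]
    · intro C hC
      obtain ⟨h, hc, hh⟩ := h2 (xorX a '' C) (hC.image _)
      exact ⟨fun x => h (xorX a x), hc.comp (continuous_xorX a), fun x hx => hh _ ⟨x, hx, rfl⟩⟩
  have h4 : ContinuousAt (fun x => Ψ (xorX a (xorX a x))) a := by
    have h5 : xorX a a = zeroX := by
      apply Subtype.ext
      funext g
      simp [xorX, zeroX]
    have h6 : ContinuousAt (fun x => Ψ (xorX a x)) (xorX a a) := by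
      rw [h5]
      exact h3
    exact ContinuousAt.comp (f := xorX a) (g := fun x => Ψ (xorX a x)) h6
      (continuous_xorX a).continuousAt
  simpa only [xorX_xorX] using h4

end

end Pool.Agent.CpDisc
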