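import Mathlib
import Pool.Agent.CpDisc.Count
import Pool.Agent.CpDisc.MainLemma
import Pool.Agent.CpDisc.Factor

/-! Final assembly. -/

open Set Cardinal Topology Filter

universe u

namespace Pool.Agent.CpDisc

lemma exists_cut (D : Set (XS.{u} → ℝ)) (hD : ∀ d ∈ D, Continuous d)
    (hdisc : DiscreteTopology D) : ∃ f : EE.{u}, ∀ d ∈ D, ∀ x, d (cutX f x) = d x := by
  have h1 : ∀ d : D, ∃ A : Set EE.{u}, A.Countable ∧ ∀ s s' : XS.{u},
      (∀ i ∈ A, s.1 i = s'.1 i) → d.1 s = d.1 s' := fun d =>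
    exists_countable_dep XS.{u} dense_XS (hD d.1 d.2)
  choose A hAc hA using h1
  have h2 : #(⋃ d : D, A d : Set EE.{u}) ≤ bO.{u} := by
    refine (mk_iUnion_le_sum_mk).trans ?_
    calc Cardinal.sum (fun d : D => #(A d)) ≤ Cardinal.sum (fun _ : D => ℵ₀) :=
          sum_le_sum _ _ fun d => le_aleph0_iff_set_countable.2 (hAc d)
      _ = #D * ℵ₀ := by rw [sum_const']
      _ ≤ bO.{u} * bO.{u} := mul_le_mul' (mk_discrete_le hD hdisc) aleph0_le_bO
      _ = bO.{u} := mul_eq_self aleph0_le_bO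
  obtain ⟨f, hf⟩ := exists_escape _ h2
  refine ⟨f, fun d hd x => ?_⟩
  refine hA ⟨d, hd⟩ _ _ fun g hg => ?_
  show cut f x.1 g = x.1 g
  exact cut_apply (hf g (mem_iUnion.2 ⟨⟨d, hd⟩, hg⟩))

lemma closure_isClosedEmbedding (D : Set (XS.{u} → ℝ)) (hD : D ⊆ {f : XS.{u} → ℝ | Continuous f})
    (hdisc : DiscreteTopology D) :
    ∃ (ι : Type u) (g : ↥(closure D ∩ {f : XS.{u} → ℝ | Continuous f}) → (ι → ℝ)),
      IsClosedEmbedding g := by
  apply exists_isClosedEmbedding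
  intro Ψ hΨ
  obtain ⟨f, hf⟩ := exists_cut D hD hdisc
  have hf' : ∀ h ∈ closure D, ∀ x, h (cutX f x) = h x := by
    intro h hh x
    have hcl : IsClosed {h : XS.{u} → ℝ | h (cutX f x) = h x} :=
      isClosed_eq (continuous_apply _) (continuous_apply _)
    exact closure_minimal (fun d hd => hf d hd x) hcl hh
  refine ⟨?_, ?_⟩
  · rw [← closure_closure, mem_closure_iff_nhds]
    intro t ht
    rw [nhds_pi, Filter.mem_pi] at ht
    obtain ⟨J, hJ, v, hv, hvt⟩ := ht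
    obtain ⟨h, hh, hJh⟩ := hΨ J hJ.countable
    refine ⟨h, hvt ?_, hh.1⟩
    intro i hi
    rw [hJh i hi]
    exact mem_of_mem_nhds (hv i)
  · refine continuous_of_cut f Ψ ?_ ?_
    · intro x
      obtain ⟨h, hh, hx⟩ := hΨ {x, cutX f x} (by simp)
      rw [← hx x (by simp), ← hx (cutX f x) (by simp)]
      exact hf' h hh.1 x
    · intro C hC
      obtain ⟨h, hh, hC'⟩ := hΨ C hC
      exact ⟨h, hh.2, hC'⟩

end Pool.Agent.CpDisc
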