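import Mathlib
import Pool.Agent.CpDisc.Final

/-! Own statement: the same counterexample, every universe for the index set of the power. -/

open Set Cardinal Topology Filter

universe u v

namespace Pool.Agent.CpDisc

/-- If some discontinuous function agrees with a continuous function on every countable set then
`C_p(X)` is not closed embeddable in a power of `ℝ` (exponent in any universe). -/
theorem not_isClosedEmbedding' {X : Type u} [TopologicalSpace X] [T35Space X] (φ : X → ℝ)
    (hφ : ¬ Continuous φ)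
    (h : ∀ C : Set X, C.Countable → ∃ h : X → ℝ, Continuous h ∧ ∀ x ∈ C, h x = φ x)
    (ι : Type v) (g : ↥{f : X → ℝ | Continuous f} → (ι → ℝ)) (hg : IsClosedEmbedding g) :
    False := by
  classical
  have hdep : ∀ i : ι, ∃ A : Set X, A.Countable ∧ ∀ s s' : ↥{f : X → ℝ | Continuous f},
      (∀ x ∈ A, s.1 x = s'.1 x) → g s i = g s' i := by
    intro i
    exact exists_countable_dep _ (dense_continuous X) (G := fun s => g s i)
      ((continuous_apply i).comp hg.continuous)
  choose A hA hAg using hdep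
  have hh : ∀ i, ∃ h : ↥{f : X → ℝ | Continuous f}, ∀ x ∈ A i, h.1 x = φ x := by
    intro i
    obtain ⟨h, hc, hh⟩ := h (A i) (hA i)
    exact ⟨⟨h, hc⟩, hh⟩
  choose H hH using hh
  let p : ι → ℝ := fun i => g (H i) i
  have hagree : ∀ (J : Set ι) (_ : J.Finite) (C : Set X) (_ : C.Countable),
      ∃ s : ↥{f : X → ℝ | Continuous f}, (∀ i ∈ J, g s i = p i) ∧ ∀ x ∈ C, s.1 x = φ x := by
    intro J hJ C hC
    obtain ⟨s, hs, hs'⟩ := h ((⋃ i ∈ J, A i) ∪ C) ((hJ.countable.biUnion fun i _ => hA i).union hC)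
    refine ⟨⟨s, hs⟩, ?_, fun x hx => hs' x (Or.inr hx)⟩
    intro i hi
    refine hAg i _ _ fun x hx => ?_
    rw [hH i x hx]
    exact hs' x (Or.inl (mem_biUnion hi hx))
  have hp : p ∈ range g := by
    rw [← hg.isClosed_range.closure_eq, mem_closure_iff_nhds]
    intro t ht
    rw [nhds_pi, Filter.mem_pi] at ht
    obtain ⟨J, hJ, v, hv, hvt⟩ := ht
    obtain ⟨s, hs, -⟩ := hagree J hJ ∅ countable_empty
    refine ⟨g s, hvt ?_, mem_range_self s⟩
    intro i hi
    rw [hs i hi]
    exact mem_of_mem_nhds (hv i)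
  obtain ⟨s₀, hs₀⟩ := hp
  have hne : ∃ x, s₀.1 x ≠ φ x := by
    by_contra hcon
    push Not at hcon
    apply hφ
    have : s₀.1 = φ := funext hcon
    rw [← this]
    exact s₀.2
  obtain ⟨x, hx⟩ := hne
  have hU : {s : ↥{f : X → ℝ | Continuous f} | s.1 x ≠ φ x} ∈ 𝓝 s₀ := by
    have hcont : Continuous fun s : ↥{f : X → ℝ | Continuous f} => s.1 x :=
      (continuous_apply x).comp continuous_subtype_val
    exact (isOpen_ne.preimage hcont).mem_nhds hx
  rw [hg.isInducing.nhds_eq_comap, Filter.mem_comap] at hU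
  obtain ⟨t, ht, htU⟩ := hU
  rw [nhds_pi, Filter.mem_pi] at ht
  obtain ⟨J, hJ, v, hv, hvt⟩ := ht
  obtain ⟨s, hs, hsx⟩ := hagree J hJ {x} (countable_singleton x)
  have : s ∈ {s : ↥{f : X → ℝ | Continuous f} | s.1 x ≠ φ x} := by
    apply htU
    apply hvt
    intro i hi
    rw [hs i hi, ← hs₀]
    exact mem_of_mem_nhds (hv i)
  exact this (hsx x rfl)

/-- closures of discrete sets inside the subtype of continuous functions -/
theorem closure_subtype (D : Set {f : XS.{u} → ℝ // Continuous f}) (hD : DiscreteTopology D) :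
    ∃ (κ : Type u) (g : closure D → κ → ℝ), IsClosedEmbedding g := by
  classical
  set D' : Set (XS.{u} → ℝ) := Subtype.val '' D with hD'
  have hsub : D' ⊆ {f : XS.{u} → ℝ | Continuous f} := by
    rintro _ ⟨d, -, rfl⟩
    exact d.2
  have hdisc : DiscreteTopology D' := by
    have h1 : IsEmbedding (fun d : D => (d.1.1 : XS.{u} → ℝ)) :=
      IsEmbedding.subtypeVal.comp IsEmbedding.subtypeVal
    have h2 : range (fun d : D => (d.1.1 : XS.{u} → ℝ)) = D' := by
      ext f
      constructor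
      · rintro ⟨d, rfl⟩
        exact ⟨d.1, d.2, rfl⟩
      · rintro ⟨d, hd, rfl⟩
        exact ⟨⟨d, hd⟩, rfl⟩
    rw [← h2]
    exact h1.toHomeomorph.symm.isEmbedding.discreteTopology
  obtain ⟨ι, g, hg⟩ := closure_isClosedEmbedding D' hsub hdisc
  have hval : IsEmbedding (Subtype.val : {f : XS.{u} → ℝ // Continuous f} → (XS.{u} → ℝ)) :=
    IsEmbedding.subtypeVal
  have hcl : ∀ x : {f : XS.{u} → ℝ // Continuous f}, x ∈ closure D ↔ x.1 ∈ closure D' := by
    intro x
    rw [hval.isInducing.closure_eq_preimage_closure_image]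
    rfl
  let j : closure D → ↥(closure D' ∩ {f : XS.{u} → ℝ | Continuous f}) :=
    fun x => ⟨x.1.1, (hcl x.1).1 x.2, x.1.2⟩
  have hj : IsEmbedding j := by
    have h1 : IsEmbedding (fun x : closure D => (x.1.1 : XS.{u} → ℝ)) :=
      hval.comp IsEmbedding.subtypeVal
    refine IsEmbedding.of_comp ?_ continuous_subtype_val h1
    exact Continuous.subtype_mk h1.continuous _
  have hjs : Function.Surjective j := by
    rintro ⟨f, hf, hc⟩
    exact ⟨⟨⟨f, hc⟩, (hcl ⟨f, hc⟩).2 hf⟩, rfl⟩
  refine ⟨ι, g ∘ j, ?_⟩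
  have hjc : IsClosedEmbedding j := ⟨hj, by rw [hjs.range_eq]; exact isClosed_univ⟩
  exact hg.comp hjc

end Pool.Agent.CpDisc
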